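import Pool.Agent.Y137.DU.Pole2

/-!
# Zeta functions and ranks of cycles for the product of an abelian variety and an arbitrary variety
-/

set_option autoImplicit false
set_option linter.unusedSectionVars false
set_option linter.unusedVariables false

namespace Pool.Agent.Y137.DU

open Pool.Agent.H204R3.CM Pool.Agent.W547.KB Pool.Agent.W547.LD
open Pool.Agent.W495.TA Pool.Agent.Y137.SF Pool.Agent.Y137.GN NumberField Module
  Pool.Agent.W495.TB Pool.Agent.W495.TC Pool.Agent.TH117.F5 Pool.Agent.TH117.BL Pool.Agent.Y137.TV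
open scoped TensorProduct

noncomputable section

variable {p : ℕ} [Fact p.Prime] {ν : PadicAlgCl p ≃+* ℂ} {Ω : Type} [Field Ω] [CharZero Ω]

section weights

variable {L : Type} [Field L] (jO : L →+* Ω) {Y : RedAV p ν}

theorem F_pow_e (e : Basis (Wt Y.X L) Ω (TM Ω Y)) [Finite (Wt Y.X L)]
    (h1 : ∀ w, co jO w (e w) = 1) (h0 : ∀ w w', w ≠ w' → co jO w (e w') = 0) (n : ℕ)
    (w : Wt Y.X L) : (F Ω Y ^ n) (e w) = lam jO w ^ n • e w := by
  induction n with
  | zero => rw [pow_zero, pow_zero, one_smul]; rfl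
  | succ n ih =>
    rw [pow_succ', pow_succ']
    change F Ω Y ((F Ω Y ^ n) (e w)) = _
    rw [ih, map_smul, F_e jO e h1 h0 w, smul_smul, mul_comm]
    rfl

/-- The weights of the elements of the product of the Tate classes of `Y` and a space. -/
theorem weight_tate (e : Basis (Wt Y.X L) Ω (TM Ω Y)) [Finite (Wt Y.X L)]
    (h1 : ∀ w, co jO w (e w) = 1) (h0 : ∀ w w', w ≠ w' → co jO w (e w') = 0) {m : ℕ}
    {N : Type} [AddCommGroup N] [Module Ω N] {S : Submodule Ω N}
    {x : CC Ω (TM Ω Y) N (2 * m)} (hx : x ∈ tensS (TY Y m) S) (I : Fin (2 * m) → Wt Y.X L)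
    (hI : x.val (fun l => e (I l)) ≠ 0) :
    ∃ s, 0 < s ∧ (∏ l, lam jO (I l)) ^ s = ((p : Ω) ^ Y.a) ^ (m * s) := by
  by_contra hcon
  push Not at hcon
  apply hI
  have hf0 : ∀ f ∈ TY (Ω := Ω) Y m, f.val (fun l => e (I l)) = 0 := by
    intro f hf
    induction hf using Submodule.span_induction with
    | mem f hf =>
      obtain ⟨s, hs, hf⟩ := hf
      by_contra hfI
      apply hcon s hs
      have h2 := hf fun l => e (I l)
      rw [funext fun l => F_pow_e jO e h1 h0 s (I l), AlternatingMap.map_smul_univ, smul_eq_mul,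
        Finset.prod_pow] at h2
      exact mul_right_cancel₀ hfI h2
    | zero => rfl
    | add f g _ _ h h' => rw [CC.val_add, h, h', add_zero]
    | smul a f _ h => rw [CC.val_smul, h, smul_zero]
  induction hx using Submodule.span_induction with
  | mem z hz =>
    obtain ⟨f, hf, w, hw, rfl⟩ := hz
    rw [tt_val, hf0 f hf, zero_smul]
  | zero => rfl
  | add f g _ _ h h' =>
    rw [CC.val_add]
    by_cases hf : f.val (fun l => e (I l)) = 0
    · rw [hf, zero_add]
      by_contra hg
      exact hg (h' hg)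
    · exact absurd (h hf) hf
  | smul a f _ h =>
    rw [CC.val_smul]
    by_cases hf : f.val (fun l => e (I l)) = 0
    · rw [hf, smul_zero]
    · exact absurd (h hf) hf

end weights

section bases

variable {T M M' : Type} [AddCommGroup T] [Module Ω T] [AddCommGroup M] [Module Ω M]
  [AddCommGroup M'] [Module Ω M'] {k j : ℕ}

/-- The vanishing of the integral does not depend on the basis. -/
theorem integral_zero (e e' : Basis (Fin k ⊕ Fin j) Ω T) (B : M →ₗ[Ω] M' →ₗ[Ω] Ω)
    (x : T [⋀^Fin k]→ₗ[Ω] M) (y : T [⋀^Fin j]→ₗ[Ω] M') (h : integral e B x y = 0) :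
    integral e' B x y = 0 := by
  classical
  let m : MultilinearMap Ω (fun _ : Fin k ⊕ Fin j => T) Ω :=
    (TensorProduct.lift B).compMultilinearMap
      (MultilinearMap.domCoprod x.toMultilinearMap y.toMultilinearMap)
  have key : ∀ e : Basis (Fin k ⊕ Fin j) Ω T,
      MultilinearMap.alternatization m e = integral e B x y := by
    intro e
    rw [MultilinearMap.alternatization_apply]
    refine Finset.sum_congr rfl fun σ _ => ?_
    rw [Units.smul_def]
    rfl
  have h0 : MultilinearMap.alternatization m = 0 :=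
    (AlternatingMap.map_basis_eq_zero_iff e _).1 ((key e).trans h)
  rw [← key e', h0]
  rfl

end bases

section main

variable [IsAlgClosed Ω] {M : ℕ → Type} [∀ b, AddCommGroup (M b)] [∀ b, Module Ω (M b)]
  [∀ b, FiniteDimensional Ω (M b)] {Y : RedAV p ν} {d : ℕ} {φ : ∀ b, M b →ₗ[Ω] M b}
  {B : ∀ b b', M b →ₗ[Ω] M b' →ₗ[Ω] Ω} {ZY : ∀ k : ℕ, Set ((TM Ω Y) [⋀^Fin k]→ₗ[Ω] Ω)}
  {ZU : ∀ b, AddSubgroup (M b)} {Z : ∀ k b : ℕ, Set ((TM Ω Y) [⋀^Fin k]→ₗ[Ω] M b)}

/-- The pairing on `U`. -/
def pairU (B : ∀ b b', M b →ₗ[Ω] M b' →ₗ[Ω] Ω) (ZU : ∀ b, AddSubgroup (M b)) (b b' : ℕ) :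
    M b →ₗ[Ω] (ZU b' → Ω) where
  toFun w w' := B b b' w w'
  map_add' w w₂ := funext fun w' => by
    rw [map_add, LinearMap.add_apply]
    rfl
  map_smul' a w := funext fun w' => by
    rw [map_smul, LinearMap.smul_apply]
    rfl

/-- The numerically trivial part. -/
theorem ker_formula (hY : IsGoodAVS Y) (hZ : IsCycleTheory Y d φ B ZY ZU Z)
    (hT : AreTateClasses Y ZY) (hφ : AreIndependent Y φ)
    (hodd : HasNoOddSupersingular ((p : Ω) ^ Y.a) φ) {m b c j b' : ℕ} (hkb : 2 * m + b = 2 * c)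
    (hkj : 2 * m + j = finrank ℚ Y.X.H1) (e₀ : Basis (Fin (2 * m) ⊕ Fin j) Ω (TM Ω Y)) :
    Submodule.span Ω (ZC Z (2 * m) b) ⊓ LinearMap.ker (rowMap (fun _ : Z j b' => e₀)
      (fun t => (show CC Ω (TM Ω Y) (M b') j from t.1)) (B b b')) =
      tensS (TY Y m) (Submodule.span Ω (ZU b : Set (M b)) ⊓ LinearMap.ker (pairU B ZU b b')) := by
  classical
  have hspan := span_Z hY hZ hT hφ hodd hkb
  have hne : Nonempty (Y.X.prod (single (kp p))).I :=
    ⟨Sum.inr ()⟩
  obtain ⟨L, _, _, _, _, j', hj'⟩ := exists_cm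
    (Y.X.prod (single (kp p)))
  have hYj : Big Y.X j' := fun i ψ => hj' (Sum.inl i) ψ
  let jO : L →+* Ω := ((IsAlgClosed.lift : L →ₐ[ℚ] Ω) : L →+* Ω)
  obtain ⟨e, hh1, hh0⟩ := Pool.Agent.W67.TA.basis p ν Ω L j' jO Y hYj
  haveI : Module.Finite ℚ Y.X.H1 := Module.Finite.pi
  haveI : Finite (Wt Y.X L) := Module.Finite.finite_basis e
  letI : Fintype (Wt Y.X L) := Fintype.ofFinite _
  have hcard : Fintype.card (Wt Y.X L) = finrank ℚ Y.X.H1 := by
    rw [← Module.finrank_eq_card_basis e, Module.finrank_baseChange]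
  let ε : Wt Y.X L ≃ Fin (2 * m) ⊕ Fin j := Fintype.equivOfCardEq (by
    rw [hcard, Fintype.card_sum, Fintype.card_fin, Fintype.card_fin, hkj])
  let e' : Basis (Fin (2 * m) ⊕ Fin j) Ω (TM Ω Y) := e.reindex ε
  have hne : ((Fintype.card (Equiv.Perm (Fin (2 * m))) : ℕ) : Ω) ≠ 0 :=
    Nat.cast_ne_zero.2 Fintype.card_ne_zero
  have h8 : (((2 * m).factorial : Ω) * (j.factorial : Ω)) ≠ 0 :=
    mul_ne_zero (Nat.cast_ne_zero.2 (Nat.factorial_ne_zero _))
      (Nat.cast_ne_zero.2 (Nat.factorial_ne_zero _))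
  apply le_antisymm
  · rintro x ⟨hx, hxR⟩
    have hxW : x ∈ tensS (TY Y m) (Submodule.span Ω (ZU b : Set (M b))) := hspan ▸ hx
    have hterm : ∀ I : Fin (2 * m) → Wt Y.X L,
        tt (show CC Ω (TM Ω Y) Ω (2 * m) from monoO jO I) (x.val fun l => e (I l)) ∈
          tensS (TY Y m)
            (Submodule.span Ω (ZU b : Set (M b)) ⊓ LinearMap.ker (pairU B ZU b b')) := by
      intro I
      by_cases hI : x.val (fun l => e (I l)) = 0
      · rw [hI, tt_zero]
        exact Submodule.zero_mem _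
      · obtain ⟨s, hs, hb⟩ := weight_tate jO e hh1 hh0 hxW I hI
        have hmono : IsTateClass Ω Y s m (monoO jO I) := by
          intro v
          rw [mono_F, hb]
        obtain ⟨g, hg⟩ := even_rank Y
        obtain ⟨m', hm'⟩ : ∃ m', j = 2 * m' := ⟨g - m, by omega⟩
        have hslot : (show CC Ω (TM Ω Y) Ω j from slot e'.det (fun l => e (I l))) ∈
            Submodule.span Ω (YC ZY j) := by
          subst hm'
          have h2 := slot_tate jO e hh1 hh0 hkj e' I (n := s) (by
            rw [mul_comm 2 s, pow_mul, hb, ← pow_mul]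
            congr 1
            ring)
          exact memC_of_combination
            (hZ.tate.2 (2 * s) m' _ (by omega) h2 (algS_goodS hY (2 * s) m' (by omega) _ h2))
        have h5 : (show CC Ω (TM Ω Y) Ω (2 * m) from monoO jO I) ∈ TY (Ω := Ω) Y m :=
          Submodule.subset_span ⟨s, hs, hmono⟩
        refine mem_tensS h5 ⟨?_, ?_⟩
        · have h6 : integral e' (LinearMap.lsmul Ω (M b)).flip x
              (slot e'.det fun l => e (I l)) ∈ Submodule.span Ω (ZU b : Set (M b)) :=
            int_memL e' _ _ (S := ZC Z (2 * m) b) _ (fun x hx => int_memR e' _ x _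
              (fun f hf => hZ.pushforward e' x f hx hf) hslot) hx
          rw [integral_slot] at h6
          have h9 := Submodule.smul_mem _
            (((2 * m).factorial : Ω) * (j.factorial : Ω))⁻¹ h6
          rw [smul_smul, inv_mul_cancel₀ h8, one_smul] at h9
          exact h9
        · rw [SetLike.mem_coe, LinearMap.mem_ker]
          funext w'
          change B b b' (x.val fun l => e (I l)) w' = 0
          have h6 : integral e' (B b b') x (tt (show CC Ω (TM Ω Y) Ω j from
              slot e'.det fun l => e (I l)) (w' : M b')) ∈ (⊥ : Submodule Ω Ω) := by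
            refine int_memR e' (B b b') x ⊥ (S := ZC Z j b') (fun y hy => ?_) ?_
            · rw [Submodule.mem_bot]
              exact integral_zero e₀ e' (B b b') x y
                (congrFun (LinearMap.mem_ker.1 hxR) ⟨y, hy⟩)
            · exact tt_mem (SY := YC ZY j) (SU := (ZU b' : Set (M b'))) _ (fun f hf w hw =>
                Submodule.subset_span (hZ.product f w _ hf hw fun v => rfl)) _ hslot _
                (Submodule.subset_span w'.2)
          have h7 : integral e' (B b b') x (tt (show CC Ω (TM Ω Y) Ω j from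
              slot e'.det fun l => e (I l)) (w' : M b')) =
              B b b' (integral e' (LinearMap.lsmul Ω (M b)).flip x
                (slot e'.det fun l => e (I l))) (w' : M b') :=
            integral_product e' (B b b') x (slot e'.det fun l => e (I l)) (w' : M b') _
              fun v => rfl
          rw [Submodule.mem_bot, h7, integral_slot, map_smul, LinearMap.smul_apply] at h6
          exact (smul_eq_zero.1 h6).resolve_left h8
    have h6 : ((Fintype.card (Equiv.Perm (Fin (2 * m))) : ℕ) : Ω) • x ∈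
        tensS (TY Y m)
          (Submodule.span Ω (ZU b : Set (M b)) ⊓ LinearMap.ker (pairU B ZU b b')) := by
      have h5 : ((Fintype.card (Equiv.Perm (Fin (2 * m))) : ℕ) : Ω) • x =
          ∑ I : Fin (2 * m) → Wt Y.X L,
            tt (show CC Ω (TM Ω Y) Ω (2 * m) from monoO jO I) (x.val fun l => e (I l)) := by
        refine CC.ext fun v => ?_
        rw [CC.val_sum]
        have h9 := expandM jO Y e hh1 hh0 (Fin (2 * m)) x
        have h10 := congrArg (fun z : (TM Ω Y) [⋀^Fin (2 * m)]→ₗ[Ω] M b => z v) h9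
        simp only [sum_altM] at h10
        exact h10
      rw [h5]
      exact Submodule.sum_mem _ fun I _ => hterm I
    have h7 := Submodule.smul_mem _
      (((Fintype.card (Equiv.Perm (Fin (2 * m))) : ℕ) : Ω))⁻¹ h6
    rwa [smul_smul, inv_mul_cancel₀ hne, one_smul] at h7
  · refine Submodule.span_le.2 ?_
    rintro _ ⟨f, hf, n, hn, rfl⟩
    refine ⟨?_, ?_⟩
    · rw [SetLike.mem_coe, hspan]
      exact mem_tensS hf hn.1
    · rw [SetLike.mem_coe, LinearMap.mem_ker]
      funext t
      change integral e₀ (B b b') (tt f n) t.1 = 0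
      have h7 : integral e₀ (B b b') (tt f n) t.1 = _ :=
        product_integral e₀ (B b b') f n (tt f n) (fun v => rfl) t.1
      rw [h7]
      have h5 : integral (e₀.reindex (Equiv.sumComm (Fin (2 * m)) (Fin j)))
          (LinearMap.lsmul Ω (M b')).flip t.1 f ∈ Submodule.span Ω (ZU b' : Set (M b')) := by
        rw [TY_eq hY hZ hT] at hf
        exact int_memR _ _ _ _ (S := YC ZY (2 * m))
          (fun f hf => hZ.pushforward _ _ f t.2 hf) hf
      have h6 : Submodule.span Ω (ZU b' : Set (M b')) ≤ LinearMap.ker (B b b' n) := by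
        rw [Submodule.span_le]
        intro w' hw'
        exact congrFun (LinearMap.mem_ker.1 hn.2) ⟨w', hw'⟩
      exact h6 h5

/-- The ranks. -/
theorem rank_formula (hY : IsGoodAVS Y) (hZ : IsCycleTheory Y d φ B ZY ZU Z)
    (hT : AreTateClasses Y ZY) (hφ : AreIndependent Y φ)
    (hodd : HasNoOddSupersingular ((p : Ω) ^ Y.a) φ) {m b c j b' : ℕ} (hkb : 2 * m + b = 2 * c)
    (hkj : 2 * m + j = finrank ℚ Y.X.H1) (e₀ : Basis (Fin (2 * m) ⊕ Fin j) Ω (TM Ω Y)) :
    rankTimes e₀ B Z b b' = finrank Ω (TY (Ω := Ω) Y m) * rank B ZU b b' := by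
  classical
  haveI : Module.Finite ℚ Y.X.H1 := Module.Finite.pi
  haveI : FiniteDimensional Ω (CC Ω (TM Ω Y) Ω (2 * m)) := finite_CC _ _ _ _
  haveI : FiniteDimensional Ω (CC Ω (TM Ω Y) (M b) (2 * m)) := finite_CC _ _ _ _
  have hspan := span_Z hY hZ hT hφ hodd hkb
  have h1 : rankTimes e₀ B Z b b' =
      finrank Ω ((Submodule.span Ω (ZC Z (2 * m) b)).map (rowMap (fun _ : Z j b' => e₀)
        (fun t => (show CC Ω (TM Ω Y) (M b') j from t.1)) (B b b'))) :=
    rk_eq (V := CC Ω (TM Ω Y) (M b) (2 * m)) (integral e₀ (B b b')) (ZC Z (2 * m) b) (Z j b')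
      (rowMap (fun _ : Z j b' => e₀)
        (fun t => (show CC Ω (TM Ω Y) (M b') j from t.1)) (B b b')) (fun x _ y => rfl)
  have h2 : rank B ZU b b' =
      finrank Ω ((Submodule.span Ω (ZU b : Set (M b))).map (pairU B ZU b b')) :=
    rk_eq (fun w w' => B b b' w w') (ZU b : Set (M b)) (ZU b' : Set (M b')) (pairU B ZU b b')
      (fun x _ y => rfl)
  have h3 := finrank_map_add (rowMap (fun _ : Z j b' => e₀)
      (fun t => (show CC Ω (TM Ω Y) (M b') j from t.1)) (B b b'))
    (Submodule.span Ω (ZC Z (2 * m) b))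
  have h4 := finrank_map_add (pairU B ZU b b') (Submodule.span Ω (ZU b : Set (M b)))
  rw [h1, h2]
  rw [ker_formula (b' := b') hY hZ hT hφ hodd hkb hkj e₀, hspan, finrank_tensS, finrank_tensS,
    ← h4, mul_add] at h3
  rw [hspan]
  exact Nat.add_right_cancel h3

/-- The factors: the dimensions of the spaces of Tate classes on `Y`. -/
def factor (Ω : Type) [Field Ω] [CharZero Ω] (Y : RedAV p ν) (k : ℕ) : ℕ :=
  if Even k then finrank Ω (TY (Ω := Ω) Y (k / 2)) else 0

theorem factor_even (Y : RedAV p ν) (m : ℕ) :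
    factor Ω Y (2 * m) = finrank Ω (TY (Ω := Ω) Y m) := by
  unfold factor
  rw [if_pos (even_two_mul m), Nat.mul_div_cancel_left m two_pos]

theorem factor_odd (Y : RedAV p ν) {k : ℕ} (hk : Odd k) : factor Ω Y k = 0 :=
  if_neg (Nat.not_even_iff_odd.2 hk)

theorem factor_pos (hZ : IsCycleTheory Y d φ B ZY ZU Z) (hT : AreTateClasses Y ZY) {k : ℕ}
    (hk : k ≤ finrank ℚ Y.X.H1) : 0 < factor Ω Y k ↔ Even k := by
  constructor
  · intro h
    by_contra hk'
    rw [factor_odd Y (Nat.not_even_iff_odd.1 hk')] at h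
    exact lt_irrefl 0 h
  · intro h
    obtain ⟨m, hm⟩ := h
    obtain rfl : k = 2 * m := by omega
    rw [factor_even]
    exact TY_pos hZ hT hk

/-- **Orders and ranks for `Y × U`.** -/
theorem defect_formula (hY : IsGoodAVS Y) (hZ : IsCycleTheory Y d φ B ZY ZU Z)
    (hT : AreTateClasses Y ZY) (hφ : AreIndependent Y φ)
    (hodd : HasNoOddSupersingular ((p : Ω) ^ Y.a) φ) :
    HasDefectFormula Y d φ B ZU Z (factor Ω Y) := by
  classical
  intro k j e b b' hkb' hbb
  haveI : Module.Finite ℚ Y.X.H1 := Module.Finite.pi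
  have hkj : k + j = finrank ℚ Y.X.H1 := by
    have h := Module.finrank_eq_card_basis e
    rw [Module.finrank_baseChange, Fintype.card_sum, Fintype.card_fin, Fintype.card_fin] at h
    exact h.symm
  obtain ⟨c, hc⟩ := hkb'
  have hkb : k + b = 2 * c := by omega
  rcases Nat.even_or_odd k with hk | hk
  · obtain ⟨m, hm⟩ := hk
    obtain rfl : k = 2 * m := by omega
    rw [factor_even]
    refine ⟨?_, ?_⟩
    · rw [mult_formula hY hφ hkb]
      congr 1
      have h := (mult_eq (φ b) (φ b : M b → M b) (fun x => rfl) ((p : Ω) ^ Y.a) (b / 2)).symm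
      have hb : b / 2 = c - m := by omega
      rw [hb] at h
      refine h.trans ?_
      unfold order
      rw [hb]
    · exact rank_formula hY hZ hT hφ hodd hkb hkj e
  · have hb : Odd b := by
      rw [Nat.odd_iff] at hk ⊢
      omega
    rw [factor_odd Y hk, zero_mul, zero_mul]
    refine ⟨?_, ?_⟩
    · have h2 : orderTimes Y φ k b = _ :=
        mult_eq (frobC Y (φ b) k) (frobMap Y (φ b)) (fun x => rfl) ((p : Ω) ^ Y.a)
          ((k + b) / 2)
      rw [h2]
      have h1 : Submodule.span Ω {x : CC Ω (TM Ω Y) (M b) k | ∃ s r, 0 < s ∧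
          IsTateVector (frobC Y (φ b) k) ((p : Ω) ^ Y.a) ((k + b) / 2) s r x} = ⊥ := by
        rw [Submodule.span_eq_bot]
        rintro x ⟨s, r, hs, hx⟩
        exact (TV.main Y hY (φ b) (hφ b) s ((k + b) / 2) r hs).2 (hodd b · hb) k hk x
          ((frobC_eq Y (φ b) k ((k + b) / 2) s r _ x).1 hx)
      rw [h1, finrank_bot]
    · have h1 : Set.range (fun (x : Z k b) (y : Z j b') => integral e (B b b') x.1 y.1) ⊆
          ((⊥ : Submodule Ω (Z j b' → Ω)) : Set (Z j b' → Ω)) := by
        rintro _ ⟨x, rfl⟩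
        rw [SetLike.mem_coe, Submodule.mem_bot]
        funext y
        obtain ⟨s, hs, hx⟩ := hZ.frobenius c hkb x.1 x.2
        have hx0 : x.1 = 0 := (TV.main Y hY (φ b) (hφ b) s c 1 hs).2 (hodd b · hb) k hk x.1
          ((isTate_iff (φ b) c s x.1).2 hx)
        change integral e (B b b') x.1 y.1 = 0
        rw [hx0]
        have h2 := integral_smul_left e (B b b') (0 : Ω) (0 : (TM Ω Y) [⋀^Fin k]→ₗ[Ω] M b) y.1
        rwa [zero_smul, zero_smul] at h2
      have h2 : Submodule.span Ω (Set.range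
          (fun (x : Z k b) (y : Z j b') => integral e (B b b') x.1 y.1)) = ⊥ :=
        le_bot_iff.1 (Submodule.span_le.2 h1)
      change finrank Ω (Submodule.span Ω (Set.range
          (fun (x : Z k b) (y : Z j b') => integral e (B b b') x.1 y.1))) = 0
      rw [h2, finrank_bot]

/-- **Tate's formula for the orders of the poles of the zeta functions of `Y × U` and `U`.** -/
theorem pole_iff (hY : IsGoodAVS Y) (hZ : IsCycleTheory Y d φ B ZY ZU Z)
    (hT : AreTateClasses Y ZY) (hφ : AreIndependent Y φ)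
    (hodd : HasNoOddSupersingular ((p : Ω) ^ Y.a) φ) (c : ℕ) :
    PoleFormulaTimes Y d φ B Z c ↔ ∀ b b', Even b → b ≤ 2 * c → 2 * c ≤ b + finrank ℚ Y.X.H1 →
      b + b' = 2 * d → order ((p : Ω) ^ Y.a) φ b = rank B ZU b b' := by
  have hdef := defect_formula hY hZ hT hφ hodd
  haveI : Module.Finite ℚ Y.X.H1 := Module.Finite.pi
  constructor
  · intro h b b' hb hb1 hb2 hb'
    obtain ⟨i, hi⟩ : ∃ i, b + 2 * i = 2 * c := by
      obtain ⟨n, hn⟩ := hb
      exact ⟨c - n, by omega⟩
    have hi2 : 2 * i ≤ finrank ℚ Y.X.H1 := by omega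
    obtain ⟨j, hj⟩ : ∃ j, 2 * i + j = finrank ℚ Y.X.H1 := ⟨_, Nat.add_sub_cancel' hi2⟩
    have hcard : finrank Ω (TM Ω Y) = Fintype.card (Fin (2 * i) ⊕ Fin j) := by
      rw [Module.finrank_baseChange, Fintype.card_sum, Fintype.card_fin, Fintype.card_fin, hj]
    let e : Basis (Fin (2 * i) ⊕ Fin j) Ω (TM Ω Y) :=
      (Module.finBasis Ω (TM Ω Y)).reindex
        (Fintype.equivOfCardEq (by rw [Fintype.card_fin, hcard]))
    have h1 := h _ _ e b b' (by omega) hb'
    obtain ⟨h2, h3⟩ := hdef _ _ e b b' ⟨c, by omega⟩ hb'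
    rw [h2, h3] at h1
    exact Nat.eq_of_mul_eq_mul_left ((factor_pos hZ hT hi2).2 (even_two_mul i)) h1
  · intro h k j e b b' hkb hbb
    have hkj : k + j = finrank ℚ Y.X.H1 := by
      have h := Module.finrank_eq_card_basis e
      rw [Module.finrank_baseChange, Fintype.card_sum, Fintype.card_fin, Fintype.card_fin] at h
      exact h.symm
    obtain ⟨h2, h3⟩ := hdef _ _ e b b' ⟨c, by omega⟩ hbb
    rw [h2, h3]
    rcases Nat.even_or_odd k with hk | hk
    · have hb : Even b := by
        rw [Nat.even_iff] at hk ⊢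
        omega
      rw [h b b' hb (by omega) (by omega) hbb]
    · rw [factor_odd Y hk, zero_mul, zero_mul]

end main

end

end Pool.Agent.Y137.DU
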