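import Pool.Agent.Y137.DU.PDefs
import Pool.Agent.Y137.TV.Defs

/-!
# The Tate conjecture for the product of an abelian variety and an arbitrary variety: definitions
-/

set_option autoImplicit false

namespace Pool.Agent.Y137.DU

open Pool.Agent.W495.TA Pool.Agent.Y137.SF Pool.Agent.Y137.TV Module

noncomputable section

variable {p : ℕ} [Fact p.Prime] {ν : PadicAlgCl p ≃+* ℂ} {Ω : Type} [Field Ω] [CharZero Ω]
  {M : ℕ → Type} [∀ b, AddCommGroup (M b)] [∀ b, Module Ω (M b)]

/-- The Tate conjecture for `U` and cycles of codimension `i`, over all finite extensions of the ground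
field with `q` elements: each Tate class is a linear combination of the classes of cycles (`r = 1`). For
`r = 2` the same for the generalised eigenvectors `w`, with `(φ ^ s - q ^ (i s)) ^ 2 w = 0`: the Tate
conjecture, and the Frobenius endomorphism is semisimple at the eigenvalues in question. -/
def TateConjecture (q : Ω) (φ : ∀ b, M b →ₗ[Ω] M b) (ZU : ∀ b, AddSubgroup (M b)) (r i : ℕ) :
    Prop :=
  ∀ s, 0 < s → ∀ w : M (2 * i), IsTateVector (φ (2 * i)) q i s r w →
    w ∈ Submodule.span Ω (ZU (2 * i) : Set (M (2 * i)))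

/-- The Tate conjecture for `Y × U` and cycles of codimension `c`, over all finite extensions of the
ground field, for all Künneth components. -/
def TateConjectureTimes (Y : RedAV p ν) (φ : ∀ b, M b →ₗ[Ω] M b)
    (Z : ∀ k b : ℕ, Set ((TM Ω Y) [⋀^Fin k]→ₗ[Ω] M b)) (r c : ℕ) : Prop :=
  ∀ k b s, k + b = 2 * c → 0 < s → ∀ x : (TM Ω Y) [⋀^Fin k]→ₗ[Ω] M b,
    IsTateVector (frobOn Y (φ b) k) ((p : Ω) ^ Y.a) c s r x → x ∈ Submodule.span Ω (Z k b)

end

end Pool.Agent.Y137.DU
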