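import Pool.Agent.Y137.DU.Main
import Pool.Agent.Y137.DU.TDefs

/-!
# The Tate conjecture for the product of an abelian variety and an arbitrary variety
-/

set_option autoImplicit false
set_option linter.unusedSectionVars false
set_option linter.unusedVariables false

namespace Pool.Agent.Y137.DU

open Pool.Agent.H204R3.CM Pool.Agent.W547.KB Pool.Agent.W547.LD
open Pool.Agent.W495.TA Pool.Agent.Y137.SF Pool.Agent.Y137.GN NumberField Module
  Pool.Agent.W495.TB Pool.Agent.W495.TC Pool.Agent.TH117.F5 Pool.Agent.TH117.BL Pool.Agent.Y137.TV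
open scoped TensorProduct

noncomputable section

section general

variable {Ω T M M' N N' : Type} [Field Ω] [AddCommGroup T] [Module Ω T] [AddCommGroup M]
  [Module Ω M] [AddCommGroup M'] [Module Ω M'] [AddCommGroup N] [Module Ω N] {k j : ℕ}
  (e : Basis (Fin k ⊕ Fin j) Ω T)

theorem integral_add_left (B : M →ₗ[Ω] M' →ₗ[Ω] N) (x x' : T [⋀^Fin k]→ₗ[Ω] M)
    (y : T [⋀^Fin j]→ₗ[Ω] M') :
    integral e B (x + x') y = integral e B x y + integral e B x' y := by
  unfold integral
  rw [← Finset.sum_add_distrib]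
  refine Finset.sum_congr rfl fun σ _ => ?_
  rw [AlternatingMap.add_apply, map_add, LinearMap.add_apply, smul_add]

theorem integral_smul_left (B : M →ₗ[Ω] M' →ₗ[Ω] N) (a : Ω) (x : T [⋀^Fin k]→ₗ[Ω] M)
    (y : T [⋀^Fin j]→ₗ[Ω] M') : integral e B (a • x) y = a • integral e B x y := by
  unfold integral
  rw [Finset.smul_sum]
  refine Finset.sum_congr rfl fun σ _ => ?_
  rw [AlternatingMap.smul_apply, map_smul, LinearMap.smul_apply, smul_comm]

theorem integral_mem_left (B : M →ₗ[Ω] M' →ₗ[Ω] N) (P : Submodule Ω N)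
    {S : Set (T [⋀^Fin k]→ₗ[Ω] M)} (y : T [⋀^Fin j]→ₗ[Ω] M')
    (h : ∀ x ∈ S, integral e B x y ∈ P) {x : T [⋀^Fin k]→ₗ[Ω] M}
    (hx : x ∈ Submodule.span Ω S) : integral e B x y ∈ P := by
  induction hx using Submodule.span_induction with
  | mem y hy => exact h y hy
  | zero =>
    have h1 := integral_smul_left e B (0 : Ω) (0 : T [⋀^Fin k]→ₗ[Ω] M) y
    rw [zero_smul, zero_smul] at h1
    rw [h1]
    exact P.zero_mem
  | add x x' _ _ h1 h2 =>
    rw [integral_add_left]
    exact P.add_mem h1 h2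
  | smul a x _ h1 =>
    rw [integral_smul_left]
    exact P.smul_mem _ h1

end general

section vectors

variable {Ω V W : Type} [Field Ω] [CharZero Ω] [AddCommGroup V] [Module Ω V] [AddCommGroup W]
  [Module Ω W]

theorem isTateVector_pow (A : V →ₗ[Ω] V) (q : Ω) (c s t r : ℕ) (x : V) :
    IsTateVector A q c (t * s) r x ↔ IsTateVector (A ^ t) (q ^ t) c s r x := by
  unfold IsTateVector
  rw [pow_mul, ← pow_mul q, show c * (t * s) = t * (c * s) by ring]

theorem isTateVector_smul {A : V →ₗ[Ω] V} {q : Ω} (hq : q ≠ 0) {m c s r : ℕ} (hm : m ≤ c)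
    (x : V) : IsTateVector ((q ^ m) • A) q c s r x ↔ IsTateVector A q (c - m) s r x := by
  unfold IsTateVector
  have h1 : ((q ^ m) • A) ^ s - (q ^ (c * s)) • (1 : V →ₗ[Ω] V) =
      (q ^ (m * s)) • (A ^ s - (q ^ ((c - m) * s)) • (1 : V →ₗ[Ω] V)) := by
    rw [smul_pow, smul_sub, smul_smul, ← pow_mul, ← pow_add, ← add_mul, Nat.add_sub_cancel' hm]
  rw [h1, smul_pow]
  change ((q ^ (m * s)) ^ r) • _ = (0 : V) ↔ _
  rw [smul_eq_zero, or_iff_right (pow_ne_zero _ (pow_ne_zero _ hq))]

end vectors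

variable {p : ℕ} [Fact p.Prime] {ν : PadicAlgCl p ≃+* ℂ} {Ω : Type} [Field Ω] [CharZero Ω]

section tens

variable {Y : RedAV p ν} {M : Type} [AddCommGroup M] [Module Ω M]

/-- Products of the elements of two spans. -/
theorem tens_mem {k : ℕ} {SY : Set ((TM Ω Y) [⋀^Fin k]→ₗ[Ω] Ω)} {SU : Set M}
    (P : Submodule Ω ((TM Ω Y) [⋀^Fin k]→ₗ[Ω] M))
    (h : ∀ f ∈ SY, ∀ w ∈ SU, tens f w ∈ P) :
    ∀ f ∈ Submodule.span Ω SY, ∀ w ∈ Submodule.span Ω SU, tens f w ∈ P := by
  intro f hf w hw
  induction hf using Submodule.span_induction with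
  | mem f hf =>
    induction hw using Submodule.span_induction with
    | mem w hw => exact h f hf w hw
    | zero =>
      have h : tens f (0 : M) = 0 := by
        ext v
        rw [tens_apply, smul_zero]
        rfl
      rw [h]
      exact P.zero_mem
    | add w w' _ _ h h' =>
      have h2 : tens f (w + w') = tens f w + tens f w' := by
        ext v
        rw [AlternatingMap.add_apply, tens_apply, tens_apply, tens_apply, smul_add]
      rw [h2]
      exact P.add_mem h h'
    | smul a w _ h =>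
      have h2 : tens f (a • w) = a • tens f w := by
        ext v
        rw [AlternatingMap.smul_apply, tens_apply, tens_apply, smul_comm]
      rw [h2]
      exact P.smul_mem _ h
  | zero =>
    have h : tens (0 : (TM Ω Y) [⋀^Fin k]→ₗ[Ω] Ω) w = 0 := by
      ext v
      rw [tens_apply]
      exact zero_smul _ _
    rw [h]
    exact P.zero_mem
  | add f f' _ _ h h' =>
    have h2 : tens (f + f') w = tens f w + tens f' w := by
      ext v
      rw [AlternatingMap.add_apply, tens_apply, tens_apply, tens_apply,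
        AlternatingMap.add_apply, add_smul]
    rw [h2]
    exact P.add_mem h h'
  | smul a f _ h =>
    have h2 : tens (a • f) w = a • tens f w := by
      ext v
      rw [AlternatingMap.smul_apply, tens_apply, tens_apply, AlternatingMap.smul_apply,
        smul_assoc]
    rw [h2]
    exact P.smul_mem _ h

/-- The product of a Tate class on `Y` and a Tate class on `U`. -/
theorem tens_tate {k i c s t r : ℕ} (hi : i ≤ c) {φ : M →ₗ[Ω] M}
    {f : (TM Ω Y) [⋀^Fin k]→ₗ[Ω] Ω} (hf : IsTateClass Ω Y t i f) {w : M}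
    (hw : IsTateVector φ ((p : Ω) ^ Y.a) (c - i) s r w) :
    IsTateVector (frobOn Y φ k) ((p : Ω) ^ Y.a) c (t * s) r (tens f w) := by
  have hq := q_ne_zero (Ω := Ω) Y
  set q := (p : Ω) ^ Y.a with hqdef
  rw [isTateVector_pow]
  let h : M →ₗ[Ω] ((TM Ω Y) [⋀^Fin k]→ₗ[Ω] M) :=
    { toFun := fun w => tens f w
      map_add' := fun w w' => by
        ext v
        rw [AlternatingMap.add_apply, tens_apply, tens_apply, tens_apply, smul_add]
      map_smul' := fun a w => by
        ext v
        rw [AlternatingMap.smul_apply, tens_apply, tens_apply, smul_comm]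
        rfl }
  have h1 : IsTateVector (((q ^ t) ^ i) • (φ ^ t)) (q ^ t) c s r w := by
    rw [isTateVector_smul (pow_ne_zero _ hq) hi, ← isTateVector_pow]
    have h2 := hw.mul t
    rwa [mul_comm] at h2
  refine IsTateVector.map h _ _ (fun w => ?_) h1
  ext v
  rw [frobOn_pow_apply]
  change tens f (((q ^ t) ^ i) • (φ ^ t) w) v = (φ ^ t) (f (fun l => (F Ω Y ^ t) (v l)) • w)
  rw [hf v, tens_apply, map_smul, smul_smul, ← hqdef, ← pow_mul, mul_comm t i, mul_comm]

end tens

section main

variable [IsAlgClosed Ω] {M : ℕ → Type} [∀ b, AddCommGroup (M b)] [∀ b, Module Ω (M b)]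
  [∀ b, FiniteDimensional Ω (M b)] {Y : RedAV p ν} {d : ℕ} {φ : ∀ b, M b →ₗ[Ω] M b}
  {B : ∀ b b', M b →ₗ[Ω] M b' →ₗ[Ω] Ω} {ZY : ∀ k : ℕ, Set ((TM Ω Y) [⋀^Fin k]→ₗ[Ω] Ω)}
  {ZU : ∀ b, AddSubgroup (M b)} {Z : ∀ k b : ℕ, Set ((TM Ω Y) [⋀^Fin k]→ₗ[Ω] M b)}

/-- **The Tate conjecture for `Y × U` and for `U`.** -/
theorem tate_iff (hY : IsGoodAVS Y) (hZ : IsCycleTheory Y d φ B ZY ZU Z)
    (hT : AreTateClasses Y ZY)
    (hφ : AreIndependent Y φ) (hodd : HasNoOddSupersingular ((p : Ω) ^ Y.a) φ)
    (r c : ℕ) : TateConjectureTimes Y φ Z r c ↔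
      ∀ i, i ≤ c → 2 * i ≤ finrank ℚ Y.X.H1 → TateConjecture ((p : Ω) ^ Y.a) φ ZU r (c - i) := by
  classical
  have hq := q_ne_zero (Ω := Ω) Y
  constructor
  · intro hTT i hi hi2 s hs w hw
    obtain ⟨f, hf, hf0⟩ := hZ.tate.1 i hi2
    obtain ⟨t, ht, hft⟩ := hT i f hf
    obtain ⟨j, hj⟩ : ∃ j, 2 * i + j = finrank ℚ Y.X.H1 := ⟨_, Nat.add_sub_cancel' hi2⟩
    have hx : tens f w ∈ Submodule.span Ω (Z (2 * i) (2 * (c - i))) :=
      hTT (2 * i) (2 * (c - i)) (t * s) (by omega) (Nat.mul_pos ht hs) _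
        (tens_tate hi hft hw)
    -- the basis of weights
    have hne : Nonempty (Y.X.prod (single (kp p))).I :=
      ⟨Sum.inr ()⟩
    obtain ⟨L, _, _, _, _, j', hj'⟩ := exists_cm
      (Y.X.prod (single (kp p)))
    have hYj : Big Y.X j' := fun i ψ => hj' (Sum.inl i) ψ
    let jO : L →+* Ω := ((IsAlgClosed.lift : L →ₐ[ℚ] Ω) : L →+* Ω)
    obtain ⟨e, h1, h0⟩ := Pool.Agent.W67.TA.basis p ν Ω L j' jO Y hYj
    haveI : Module.Finite ℚ Y.X.H1 := Module.Finite.pi
    haveI : Finite (Wt Y.X L) := Module.Finite.finite_basis e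
    letI : Fintype (Wt Y.X L) := Fintype.ofFinite _
    have hcard : Fintype.card (Wt Y.X L) = finrank ℚ Y.X.H1 := by
      rw [← Module.finrank_eq_card_basis e, Module.finrank_baseChange]
    let ε : Wt Y.X L ≃ Fin (2 * i) ⊕ Fin j := Fintype.equivOfCardEq (by
      rw [hcard, Fintype.card_sum, Fintype.card_fin, Fintype.card_fin, hj])
    let e' : Basis (Fin (2 * i) ⊕ Fin j) Ω (TM Ω Y) := e.reindex ε
    obtain ⟨I, hI⟩ : ∃ I : Fin (2 * i) → Wt Y.X L, f (fun l => e (I l)) ≠ 0 := by
      by_contra hcon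
      push Not at hcon
      exact hf0 (e.ext_alternating fun I _ => hcon I)
    have hb : (∏ l, lam jO (I l)) ^ t = ((p : Ω) ^ Y.a) ^ (i * t) := by
      have h2 := hft fun l => e (I l)
      have hF : ∀ (n : ℕ) (w : Wt Y.X L), (F Ω Y ^ n) (e w) = lam jO w ^ n • e w := by
        intro n w
        induction n with
        | zero => rw [pow_zero, pow_zero, one_smul]; rfl
        | succ n ih =>
          rw [pow_succ', pow_succ']
          change F Ω Y ((F Ω Y ^ n) (e w)) = _
          rw [ih, map_smul, F_e jO e h1 h0 w, smul_smul, mul_comm]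
          rfl
      rw [funext fun l => hF t (I l), AlternatingMap.map_smul_univ, smul_eq_mul,
        Finset.prod_pow] at h2
      exact mul_right_cancel₀ hI h2
    obtain ⟨g, hg⟩ := even_rank Y
    obtain ⟨m', hm'⟩ : ∃ m', j = 2 * m' := ⟨g - i, by omega⟩
    subst hm'
    have h2 := slot_tate jO e h1 h0 hj e' I (n := t) (by
      rw [mul_comm 2 t, pow_mul, hb, ← pow_mul]
      congr 1
      ring)
    have h3 := mem_of_combination
      (hZ.tate.2 (2 * t) m' _ (by omega) h2 (algS_goodS hY (2 * t) m' (by omega) _ h2))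
    have h4 : integral e' (LinearMap.lsmul Ω (M (2 * (c - i)))).flip (tens f w)
        (slot e'.det fun l => e (I l)) ∈
        Submodule.span Ω (ZU (2 * (c - i)) : Set (M (2 * (c - i)))) :=
      integral_mem_left e' _ _ _ (fun x hx => integral_mem e' _ x _
        (fun f hf => hZ.pushforward e' x f hx hf) h3) hx
    rw [integral_slot, tens_apply, smul_smul] at h4
    have h8 : ((2 * i).factorial : Ω) * ((2 * m').factorial : Ω) * f (fun l => e (I l)) ≠ 0 :=
      mul_ne_zero (mul_ne_zero (Nat.cast_ne_zero.2 (Nat.factorial_ne_zero _))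
        (Nat.cast_ne_zero.2 (Nat.factorial_ne_zero _))) hI
    have h9 := Submodule.smul_mem _
      (((2 * i).factorial : Ω) * ((2 * m').factorial : Ω) * f (fun l => e (I l)))⁻¹ h4
    rwa [smul_smul, inv_mul_cancel₀ h8, one_smul] at h9
  · intro hTU k b s hkb hs x hx
    obtain ⟨hm1, hm2⟩ := main Y hY (φ b) (hφ b) s c r hs
    rcases Nat.even_or_odd k with hk | hk
    · obtain ⟨m, hm⟩ := hk
      have hkm : k = 2 * m := by omega
      subst hkm
      have hb2 : b = 2 * (c - m) := by omega
      subst hb2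
      refine Submodule.span_le.2 ?_ (hm1 m x hx)
      rintro g ⟨s', f, w, hs', hf, hfA, hw, hg⟩
      have hgt : g = tens f w := AlternatingMap.ext fun v => hg v
      rw [hgt]
      by_cases hrk : 2 * m ≤ finrank ℚ Y.X.H1
      · refine tens_mem (Submodule.span Ω (Z (2 * m) (2 * (c - m)))) (fun f hf w hw =>
          Submodule.subset_span (hZ.product f w _ hf hw fun v => rfl)) f
          (mem_of_combination (hZ.tate.2 s' m f hs' hf hfA)) w ?_
        refine hTU m (by omega) hrk s' hs' w ?_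
        exact (isTateVector_smul hq (by omega) w).1 hw
      · have hf0 : f = 0 := by
          haveI : Module.Finite ℚ Y.X.H1 := Module.Finite.pi
          ext v
          refine f.map_linearDependent v fun hv => hrk ?_
          have h2 := hv.fintype_card_le_finrank
          rwa [Fintype.card_fin, Module.finrank_baseChange] at h2
        have h3 : tens f w = 0 := by
          rw [hf0]
          ext v
          rw [tens_apply]
          exact zero_smul _ _
        rw [h3]
        exact Submodule.zero_mem _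
    · have hb : Odd b := by
        rw [Nat.odd_iff] at hk ⊢
        omega
      rw [hm2 (hodd b · hb) k hk x hx]
      exact Submodule.zero_mem _

end main

end

end Pool.Agent.Y137.DU
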