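import Pool.Agent.Y137.GN.Defs

/-!
# Algebraic cycles on the product of an abelian variety and an arbitrary variety: definitions
-/

set_option autoImplicit false

namespace Pool.Agent.Y137.DU

open Pool.Agent.W495.TA Pool.Agent.Y137.SF Module

noncomputable section

/-- Let `T` be the Tate module of an abelian variety `Y`, with a basis `e`, let `x` and `y` be alternating
maps in `k` and `j` variables from `T` to `M` and `M'` (that is, elements of `H^k(Y) ⊗ M` and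
`H^j(Y) ⊗ M'`), where `k + j = 2 dim Y` is the rank of `T`, and let `B : M × M' → N` be bilinear. This
is the integral over `Y` of the exterior product of `x` and `y`, with values in `N`, up to a constant
factor which only depends on `k`, `j` and `e`. -/
def integral {Ω T M M' N : Type} [Field Ω] [AddCommGroup T] [Module Ω T] [AddCommGroup M]
    [Module Ω M] [AddCommGroup M'] [Module Ω M'] [AddCommGroup N] [Module Ω N] {k j : ℕ}
    (e : Basis (Fin k ⊕ Fin j) Ω T) (B : M →ₗ[Ω] M' →ₗ[Ω] N) (x : T [⋀^Fin k]→ₗ[Ω] M)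
    (y : T [⋀^Fin j]→ₗ[Ω] M') : N :=
  ∑ σ : Equiv.Perm (Fin k ⊕ Fin j), (Equiv.Perm.sign σ : ℤ) •
    B (x fun l => e (σ (Sum.inl l))) (y fun l => e (σ (Sum.inr l)))

variable {p : ℕ} [Fact p.Prime] {ν : PadicAlgCl p ≃+* ℂ} {Ω : Type} [Field Ω] [CharZero Ω]
  {M : ℕ → Type} [∀ b, AddCommGroup (M b)] [∀ b, Module Ω (M b)]

/-- `x` is a linear combination of the products of elements of `SY ⊆ H^k(Y)` and `SU ⊆ N`. -/
def IsCombination (Y : RedAV p ν) {N : Type} [AddCommGroup N] [Module Ω N] {k : ℕ}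
    (SY : Set ((TM Ω Y) [⋀^Fin k]→ₗ[Ω] Ω)) (SU : Set N) (x : (TM Ω Y) [⋀^Fin k]→ₗ[Ω] N) : Prop :=
  ∃ (n : ℕ) (a : Fin n → Ω) (f : Fin n → (TM Ω Y) [⋀^Fin k]→ₗ[Ω] Ω) (w : Fin n → N),
    (∀ i, f i ∈ SY) ∧ (∀ i, w i ∈ SU) ∧ ∀ v, x v = ∑ i, (a i * f i v) • w i

/-- Intersection numbers on `U` are integers. -/
def IsInteger (d : ℕ) (B : ∀ b b', M b →ₗ[Ω] M b' →ₗ[Ω] Ω) (ZU : ∀ b, AddSubgroup (M b)) : Prop :=
  ∀ b b', b + b' = 2 * d → ∀ w ∈ ZU b, ∀ w' ∈ ZU b', ∃ n : ℤ, B b b' w w' = n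

/-- Products of cycles on `Y` and on `U` are cycles on `Y × U`. -/
def HasProducts (Y : RedAV p ν) (ZY : ∀ k : ℕ, Set ((TM Ω Y) [⋀^Fin k]→ₗ[Ω] Ω))
    (ZU : ∀ b, AddSubgroup (M b)) (Z : ∀ k b : ℕ, Set ((TM Ω Y) [⋀^Fin k]→ₗ[Ω] M b)) : Prop :=
  ∀ {k b} (f : (TM Ω Y) [⋀^Fin k]→ₗ[Ω] Ω) (w : M b) (g : (TM Ω Y) [⋀^Fin k]→ₗ[Ω] M b),
    f ∈ ZY k → w ∈ ZU b → (∀ v, g v = f v • w) → g ∈ Z k b

/-- For cycles `x` on `Y × U` and `f` on `Y` the push-forward of `x · (f × U)` to `U` is a cycle (up to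
the factor in the definition of `integral`). -/
def HasPushforward (Y : RedAV p ν) (ZY : ∀ k : ℕ, Set ((TM Ω Y) [⋀^Fin k]→ₗ[Ω] Ω))
    (ZU : ∀ b, AddSubgroup (M b)) (Z : ∀ k b : ℕ, Set ((TM Ω Y) [⋀^Fin k]→ₗ[Ω] M b)) : Prop :=
  ∀ {k j b} (e : Basis (Fin k ⊕ Fin j) Ω (TM Ω Y)) (x : (TM Ω Y) [⋀^Fin k]→ₗ[Ω] M b)
    (f : (TM Ω Y) [⋀^Fin j]→ₗ[Ω] Ω), x ∈ Z k b → f ∈ ZY j →
    integral e (LinearMap.lsmul Ω (M b)).flip x f ∈ Submodule.span Ω (ZU b : Set (M b))

/-- `x ∈ H^k(Y) ⊗ H^b(U)` is a Tate class of codimension `c` over the extension of degree `s` of the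
ground field: the Frobenius endomorphism over this field (it is induced by the Frobenius endomorphism `F`
of the Tate module of `Y` and by the one of `H^b(U)`) multiplies `x` by `q ^ (c s)`. -/
def IsTate (Y : RedAV p ν) {N : Type} [AddCommGroup N] [Module Ω N] (φ : N →ₗ[Ω] N) {k : ℕ}
    (c s : ℕ) (x : (TM Ω Y) [⋀^Fin k]→ₗ[Ω] N) : Prop :=
  ∀ v, (φ ^ s) (x fun l => (F Ω Y ^ s) (v l)) = (((p : Ω) ^ Y.a) ^ (c * s)) • x v

/-- Each cycle of codimension `c` on `Y × U` is defined over an extension of some degree `s` of the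
ground field, and its class is a Tate class over this field. -/
def HasFrobenius (Y : RedAV p ν) (φ : ∀ b, M b →ₗ[Ω] M b)
    (Z : ∀ k b : ℕ, Set ((TM Ω Y) [⋀^Fin k]→ₗ[Ω] M b)) : Prop :=
  ∀ {k b} (c : ℕ), k + b = 2 * c → ∀ x ∈ Z k b, ∃ s, 0 < s ∧ IsTate Y (φ b) c s x

/-- All eigenvalues `α` of the Frobenius endomorphisms of `U` are independent of the Frobenius
eigenvalues of `Y`: there is an endomorphism of the field `Ω` that fixes a power of `α` and that induces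
the complex conjugation on the images of the CM fields of the factors of `Y`. If `α` is algebraic over
`ℚ` this is true if and only if for some `N > 0` the intersection of `ℚ(α ^ N)` with the compositum of the
Galois closures of these fields is totally real. -/
def AreIndependent (Y : RedAV p ν) (φ : ∀ b, M b →ₗ[Ω] M b) : Prop :=
  ∀ b α, End.HasEigenvalue (φ b) α → ∃ (τ : Ω →+* Ω) (N : ℕ), 0 < N ∧ τ α ^ N = α ^ N ∧
    ∀ i (σ : (Y.X.factor i).E →+* Ω) (x : (Y.X.factor i).E),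
      τ (σ x) = σ (NumberField.IsCMField.complexConj _ x)

/-- No eigenvalue of the Frobenius endomorphism of `U` in odd degree is, up to a root of unity, an odd
power of the square root of `q`. -/
def HasNoOddSupersingular (q : Ω) (φ : ∀ b, M b →ₗ[Ω] M b) : Prop :=
  ∀ b α, Odd b → End.HasEigenvalue (φ b) α →
    ¬ ∃ (n : ℕ) (l : ℤ), 0 < n ∧ Odd l ∧ α ^ (2 * n) = q ^ ((n : ℤ) * l)

/-- Powers of an ample class on `Y` are not zero, and the Tate classes on `Y` in the system `AlgS` are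
linear combinations of classes of algebraic cycles (theorems of Tate, Markman and Ramón Marí). -/
def HasTateClasses (Y : RedAV p ν) (ZY : ∀ k : ℕ, Set ((TM Ω Y) [⋀^Fin k]→ₗ[Ω] Ω)) : Prop :=
  (∀ i, 2 * i ≤ finrank ℚ Y.X.H1 → ∃ f ∈ ZY (2 * i), f ≠ 0) ∧
  ∀ s m (f : (TM Ω Y) [⋀^Fin (2 * m)]→ₗ[Ω] Ω), 0 < s → IsTateClass Ω Y s m f →
    AlgS Ω {4, 6} Y (Fin (2 * m)) f → IsCombination Y (ZY (2 * m)) {1} f

/-- Let `Y` and `U` be smooth projective varieties over a field with `q = p ^ a` elements, `Y` an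
abelian variety, `d = dim U`. The space `M b` is the cohomology group `H^b(U)`, with the Frobenius
endomorphism `φ b` and the Poincaré duality pairings `B b b'`, `b + b' = 2 d` (the twists are omitted).
The part `H^k(Y) ⊗ H^b(U)` of the cohomology of `Y × U` is the space of the alternating maps in `k`
variables from the Tate module of `Y` to `M b`. Then `ZY k ⊆ H^k(Y)`, `ZU b ⊆ H^b(U)` and
`Z k b ⊆ H^k(Y) ⊗ H^b(U)` are the sets of the classes of algebraic cycles (over an algebraic closure)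
and of their Künneth components. All the properties listed here are known. -/
structure IsCycleTheory (Y : RedAV p ν) (d : ℕ) (φ : ∀ b, M b →ₗ[Ω] M b)
    (B : ∀ b b', M b →ₗ[Ω] M b' →ₗ[Ω] Ω) (ZY : ∀ k : ℕ, Set ((TM Ω Y) [⋀^Fin k]→ₗ[Ω] Ω))
    (ZU : ∀ b, AddSubgroup (M b)) (Z : ∀ k b : ℕ, Set ((TM Ω Y) [⋀^Fin k]→ₗ[Ω] M b)) : Prop where
  integer : IsInteger d B ZU
  product : HasProducts Y ZY ZU Z
  pushforward : HasPushforward Y ZY ZU Z
  frobenius : HasFrobenius Y φ Z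
  tate : HasTateClasses Y ZY

/-- The conjecture D for `U` and cycles of codimension `i`: the class of a cycle which is numerically
equivalent to zero is zero. -/
def ConjectureD (d : ℕ) (B : ∀ b b', M b →ₗ[Ω] M b' →ₗ[Ω] Ω) (ZU : ∀ b, AddSubgroup (M b))
    (i : ℕ) : Prop :=
  ∀ b', 2 * i + b' = 2 * d → ∀ w ∈ ZU (2 * i), (∀ w' ∈ ZU b', B (2 * i) b' w w' = 0) → w = 0

/-- The Künneth formula for cycles modulo homological equivalence: the class of each cycle on `Y × U` is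
a linear combination of the classes of the products of a cycle on `Y` and a cycle on `U`. -/
def KunnethFormula (Y : RedAV p ν) (ZY : ∀ k : ℕ, Set ((TM Ω Y) [⋀^Fin k]→ₗ[Ω] Ω))
    (ZU : ∀ b, AddSubgroup (M b)) (Z : ∀ k b : ℕ, Set ((TM Ω Y) [⋀^Fin k]→ₗ[Ω] M b)) : Prop :=
  ∀ c k b, k + b = 2 * c → ∀ x ∈ Z k b, IsCombination Y (ZY k) (ZU b) x

/-- The conjecture D for `Y × U` and cycles of codimension `c` (for each Künneth component of the
cycle: these are numerically equivalent to zero if and only if the cycle is). -/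
def ConjectureDTimes (Y : RedAV p ν) (d : ℕ) (B : ∀ b b', M b →ₗ[Ω] M b' →ₗ[Ω] Ω)
    (Z : ∀ k b : ℕ, Set ((TM Ω Y) [⋀^Fin k]→ₗ[Ω] M b)) (c : ℕ) : Prop :=
  ∀ k b j b', k + b = 2 * c → k + j = finrank ℚ Y.X.H1 → b + b' = 2 * d → ∀ x ∈ Z k b,
    (∀ (e : Basis (Fin k ⊕ Fin j) Ω (TM Ω Y)), ∀ y ∈ Z j b', integral e (B b b') x y = 0) → x = 0

end

end Pool.Agent.Y137.DU
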