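import Mathlib

/-!
# Integration of products of forms (adapted from `Pool.Agent.TH504.VY.Pair`)
-/

set_option linter.unusedSectionVars false

namespace Pool.Agent.Y137.DU

open Module Equiv

noncomputable section

variable {Ω W : Type*} [Field Ω] [AddCommGroup W] [Module Ω W] {k j : ℕ}

/-- The contraction of a form with `k` vectors. -/
def slot (ω : W [⋀^Fin k ⊕ Fin j]→ₗ[Ω] Ω) (x : Fin k → W) : W [⋀^Fin j]→ₗ[Ω] Ω where
  toFun w := ω (Sum.elim x w)
  map_update_add' := by
    intro _ w i a b
    classical
    have h1 : ∀ y, Sum.elim x (Function.update w i y) =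
        Function.update (Sum.elim x w) (Sum.inr i) y := fun y => Sum.elim_update_right _ _ _ _
    have h2 := ω.map_update_add (Sum.elim x w) (Sum.inr i) a b
    rw [← h1, ← h1, ← h1] at h2
    convert h2
  map_update_smul' := by
    intro _ w i r a
    classical
    have h1 : ∀ y, Sum.elim x (Function.update w i y) =
        Function.update (Sum.elim x w) (Sum.inr i) y := fun y => Sum.elim_update_right _ _ _ _
    have h2 := ω.map_update_smul (Sum.elim x w) (Sum.inr i) r a
    rw [← h1, ← h1] at h2
    convert h2
  map_eq_zero_of_eq' w i i' h hne :=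
    ω.map_eq_zero_of_eq (Sum.elim x w) (i := Sum.inr i) (j := Sum.inr i') h
      (fun h' => hne (Sum.inr_injective h'))

theorem slot_apply (ω : W [⋀^Fin k ⊕ Fin j]→ₗ[Ω] Ω) (x : Fin k → W) (w : Fin j → W) :
    slot ω x w = ω (Sum.elim x w) := rfl

/-- The multilinear map before alternation. -/
def preW (f : W [⋀^Fin k]→ₗ[Ω] Ω) (β : W [⋀^Fin j]→ₗ[Ω] Ω) :
    MultilinearMap Ω (fun _ : Fin k ⊕ Fin j => W) Ω :=
  (LinearMap.mul' Ω Ω).compMultilinearMap (f.toMultilinearMap.domCoprod β.toMultilinearMap)

theorem preW_apply (f : W [⋀^Fin k]→ₗ[Ω] Ω) (β : W [⋀^Fin j]→ₗ[Ω] Ω) (y : Fin k ⊕ Fin j → W) :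
    preW f β y = f (fun l => y (Sum.inl l)) * β (fun l => y (Sum.inr l)) := rfl

/-- The wedge product, up to a factor. -/
def wedgeW (f : W [⋀^Fin k]→ₗ[Ω] Ω) (β : W [⋀^Fin j]→ₗ[Ω] Ω) :
    W [⋀^Fin k ⊕ Fin j]→ₗ[Ω] Ω := MultilinearMap.alternatization (preW f β)

theorem wedgeW_apply (f : W [⋀^Fin k]→ₗ[Ω] Ω) (β : W [⋀^Fin j]→ₗ[Ω] Ω)
    (y : Fin k ⊕ Fin j → W) : wedgeW f β y = ∑ σ : Perm (Fin k ⊕ Fin j), (Perm.sign σ : ℤ) •
      (f (fun l => y (σ (Sum.inl l))) * β (fun l => y (σ (Sum.inr l)))) := by
  unfold wedgeW
  rw [MultilinearMap.alternatization_apply]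
  rfl

theorem sumExtend_inl {ι : Type*} {x : ι → W} (hx : LinearIndependent Ω x) (i : ι) :
    Basis.sumExtend hx (Sum.inl i) = x i := by
  simp only [Basis.sumExtend, Basis.reindex_apply, Basis.extend_apply_self]
  rfl

/-- The integral of the product of a form with a contraction of the volume form. -/
theorem wedge_slot (e : Basis (Fin k ⊕ Fin j) Ω W) (f : W [⋀^Fin k]→ₗ[Ω] Ω) (x : Fin k → W) :
    wedgeW f (slot e.det x) e = (k.factorial : Ω) * (j.factorial : Ω) * f x := by
  classical
  have h1 : wedgeW f (slot e.det x) = wedgeW f (slot e.det x) e • e.det :=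
    AlternatingMap.eq_smul_basis_det e _
  by_cases hx : LinearIndependent Ω x
  · -- extension to a basis
    obtain ⟨y, hy⟩ : ∃ y : Fin j → W, e.det (Sum.elim x y) ≠ 0 := by
      have : FiniteDimensional Ω W := Module.Finite.of_basis e
      let b := Basis.sumExtend hx
      have : Fintype (Basis.sumExtendIndex hx) := by
        have h2 : Finite (Fin k ⊕ ↑(Basis.sumExtendIndex hx)) := Module.Finite.finite_basis b
        have h3 : Finite ↑(Basis.sumExtendIndex hx) := Finite.of_injective
          (Sum.inr : _ → Fin k ⊕ ↑(Basis.sumExtendIndex hx)) Sum.inr_injective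
        exact Fintype.ofFinite _
      have hcard : Fintype.card ↑(Basis.sumExtendIndex hx) = Fintype.card (Fin j) := by
        have h2 := Module.finrank_eq_card_basis b
        have h3 := Module.finrank_eq_card_basis e
        rw [Fintype.card_sum] at h2 h3
        omega
      let q : ↑(Basis.sumExtendIndex hx) ≃ Fin j := Fintype.equivOfCardEq hcard
      let b' := b.reindex (Equiv.sumCongr (Equiv.refl (Fin k)) q)
      refine ⟨fun l => b' (Sum.inr l), ?_⟩
      have h2 : Sum.elim x (fun l => b' (Sum.inr l)) = b' := by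
        funext i
        rcases i with i | i
        · have h3 : b (Sum.inl i) = x i := by
            exact sumExtend_inl hx i
          change x i = b' (Sum.inl i)
          rw [Basis.reindex_apply]
          exact h3.symm
        · rfl
      rw [h2]
      exact (e.isUnit_det b').ne_zero
    have h2 := congrArg (fun F => F (Sum.elim x y)) h1
    simp only [AlternatingMap.smul_apply, smul_eq_mul] at h2
    have h3 : wedgeW f (slot e.det x) (Sum.elim x y) =
        (k.factorial : Ω) * (j.factorial : Ω) * f x * e.det (Sum.elim x y) := by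
      rw [wedgeW_apply]
      have hT : ∀ σ : Perm (Fin k ⊕ Fin j), σ ∉ Finset.univ.image (Perm.sumCongrHom (Fin k) (Fin j)) →
          (Perm.sign σ : ℤ) • (f (fun l => Sum.elim x y (σ (Sum.inl l))) *
            slot e.det x (fun l => Sum.elim x y (σ (Sum.inr l)))) = 0 := by
        intro σ hσ
        have h4 : ∃ l a, σ (Sum.inr l) = Sum.inl a := by
          by_contra hcon
          push Not at hcon
          apply hσ
          have h5 : Set.MapsTo σ (Set.range Sum.inr) (Set.range Sum.inr) := by
            rintro _ ⟨l, rfl⟩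
            rcases h6 : σ (Sum.inr l) with a | a
            · exact absurd h6 (hcon l a)
            · exact ⟨a, rfl⟩
          have h6 : Set.MapsTo σ (Set.range Sum.inl) (Set.range Sum.inl) :=
            (Perm.perm_mapsTo_inl_iff_mapsTo_inr σ).2 h5
          obtain ⟨p, hp⟩ := Perm.mem_sumCongrHom_range_of_perm_mapsTo_inl h6
          exact Finset.mem_image.2 ⟨p, Finset.mem_univ _, hp⟩
        obtain ⟨l, a, hla⟩ := h4
        have h5 : slot e.det x (fun l => Sum.elim x y (σ (Sum.inr l))) = 0 := by
          rw [slot_apply]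
          refine e.det.map_eq_zero_of_eq _ (i := Sum.inl a) (j := Sum.inr l) ?_ (by simp)
          change x a = Sum.elim x y (σ (Sum.inr l))
          rw [hla]
          rfl
        rw [h5, mul_zero, smul_zero]
      rw [← Finset.sum_subset (Finset.subset_univ (Finset.univ.image
        (Perm.sumCongrHom (Fin k) (Fin j)))) (fun σ _ hσ => hT σ hσ),
        Finset.sum_image (fun a _ b _ h => Perm.sumCongrHom_injective h)]
      have hterm : ∀ p : Perm (Fin k) × Perm (Fin j),
          (Perm.sign (Perm.sumCongrHom (Fin k) (Fin j) p) : ℤ) •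
            (f (fun l => Sum.elim x y (Perm.sumCongrHom (Fin k) (Fin j) p (Sum.inl l))) *
            slot e.det x (fun l => Sum.elim x y (Perm.sumCongrHom (Fin k) (Fin j) p (Sum.inr l)))) =
          f x * e.det (Sum.elim x y) := by
        rintro ⟨π, ρ⟩
        have h4 : f (fun l => x (π l)) = Perm.sign π • f x := f.map_perm x π
        have h5 : slot e.det x (fun l => y (ρ l)) = Perm.sign ρ • slot e.det x y :=
          (slot e.det x).map_perm y ρ
        change (Perm.sign (Perm.sumCongr π ρ) : ℤ) • (f (fun l => x (π l)) *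
          slot e.det x (fun l => y (ρ l))) = _
        rw [h4, h5, Perm.sign_sumCongr, slot_apply]
        rcases Int.units_eq_one_or (Perm.sign π) with h | h <;>
          rcases Int.units_eq_one_or (Perm.sign ρ) with h' | h' <;> rw [h, h'] <;> simp
      rw [Finset.sum_congr rfl (fun p _ => hterm p), Finset.sum_const, Finset.card_univ,
        Fintype.card_prod, Fintype.card_perm, Fintype.card_perm, Fintype.card_fin,
        Fintype.card_fin, nsmul_eq_mul]
      push_cast
      ring
    rw [h3] at h2
    exact (mul_right_cancel₀ hy h2).symm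
  · have h2 : f x = 0 := f.map_linearDependent x hx
    rw [h2, mul_zero, wedgeW_apply]
    refine Finset.sum_eq_zero fun σ _ => ?_
    have h3 : slot e.det x (fun l => e (σ (Sum.inr l))) = 0 := by
      rw [slot_apply]
      refine e.det.map_linearDependent _ fun h => hx ?_
      exact (h.comp Sum.inl Sum.inl_injective)
    rw [h3, mul_zero, smul_zero]

end

end Pool.Agent.Y137.DU
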