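import Pool.Agent.Y137.DU.Lin
import Pool.Agent.Y137.TV.Final

/-!
# Algebraic cycles on the product of an abelian variety and an arbitrary variety
-/

set_option autoImplicit false
set_option linter.unusedSectionVars false
set_option linter.unusedVariables false

namespace Pool.Agent.Y137.DU

open Pool.Agent.H204R3.CM Pool.Agent.W547.KB Pool.Agent.W547.LD
open Pool.Agent.W495.TA Pool.Agent.Y137.SF Pool.Agent.Y137.GN NumberField Module
  Pool.Agent.W495.TB Pool.Agent.W495.TC Pool.Agent.TH117.F5 Pool.Agent.TH117.BL Pool.Agent.Y137.TV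
open scoped TensorProduct

noncomputable section

variable {p : ℕ} [Fact p.Prime] {ν : PadicAlgCl p ≃+* ℂ} {Ω : Type} [Field Ω] [CharZero Ω]

section det

variable {L : Type} [Field L] (jO : L →+* Ω) (Y : RedAV p ν)

/-- Complex conjugation of weights. -/
def cj (w : Wt Y.X L) : Wt Y.X L :=
  ⟨w.1, w.2.comp (RingHomClass.toRingHom (IsCMField.complexConj (Y.X.factor w.1).E))⟩

theorem cj_cj (w : Wt Y.X L) : cj Y (cj Y w) = w := by
  rcases w with ⟨i, f⟩
  refine Sigma.ext rfl (heq_of_eq ?_)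
  refine RingHom.ext fun x => ?_
  change f (IsCMField.complexConj (Y.X.factor i).E (IsCMField.complexConj (Y.X.factor i).E x)) = f x
  rw [IsCMField.complexConj_apply_apply]

theorem lam_cj (w : Wt Y.X L) : lam jO w * lam jO (cj Y w) = (p : Ω) ^ Y.a := by
  change jO (w.2 (Y.π w.1)) * jO (w.2 (IsCMField.complexConj (Y.X.factor w.1).E (Y.π w.1))) = _
  rw [← map_mul, ← map_mul, pi_conj, map_pow, map_natCast, map_pow, map_natCast]

theorem det_F_sq (e : Basis (Wt Y.X L) Ω (TM Ω Y)) [Finite (Wt Y.X L)]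
    (h1 : ∀ w, co jO w (e w) = 1) (h0 : ∀ w w', w ≠ w' → co jO w (e w') = 0) :
    LinearMap.det (F Ω Y) ^ 2 = ((p : Ω) ^ Y.a) ^ finrank ℚ Y.X.H1 := by
  classical
  letI : Fintype (Wt Y.X L) := Fintype.ofFinite _
  have hdet : LinearMap.det (F Ω Y) = ∏ w : Wt Y.X L, lam jO w := by
    rw [← LinearMap.det_toMatrix e]
    have h2 : LinearMap.toMatrix e e (F Ω Y) = Matrix.diagonal fun w => lam jO w := by
      ext i j
      rw [LinearMap.toMatrix_apply, F_e jO e h1 h0 j, map_smul, Basis.repr_self,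
        Finsupp.smul_single, smul_eq_mul, mul_one, Matrix.diagonal_apply]
      by_cases h : i = j
      · subst h
        rw [Finsupp.single_eq_same, if_pos rfl]
        rfl
      · rw [Finsupp.single_eq_of_ne h, if_neg h]
    rw [h2, Matrix.det_diagonal]
  have hcard : Fintype.card (Wt Y.X L) = finrank ℚ Y.X.H1 := by
    rw [← Module.finrank_eq_card_basis e, Module.finrank_baseChange]
  have hcj : ∏ w : Wt Y.X L, lam jO w = ∏ w : Wt Y.X L, lam jO (cj Y w) := by
    let σ : Equiv.Perm (Wt Y.X L) := ⟨cj Y, cj Y, cj_cj Y, cj_cj Y⟩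
    exact (Equiv.prod_comp σ fun w : Wt Y.X L => lam jO w).symm
  rw [hdet, sq]
  nth_rw 2 [hcj]
  rw [← Finset.prod_mul_distrib, Finset.prod_congr rfl fun w _ => lam_cj jO Y w,
    Finset.prod_const, Finset.card_univ, hcard]

theorem even_rank : Even (finrank ℚ Y.X.H1) := by
  rw [finrank_H1]
  exact Finset.even_sum _ fun i _ => even_finrank _

end det

section slot

variable {L : Type} [Field L] (jO : L →+* Ω) {Y : RedAV p ν}

/-- The contraction of the volume form is a Tate class. -/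
theorem slot_tate (e : Basis (Wt Y.X L) Ω (TM Ω Y)) [Finite (Wt Y.X L)]
    (h1 : ∀ w, co jO w (e w) = 1) (h0 : ∀ w w', w ≠ w' → co jO w (e w') = 0) {k m' : ℕ}
    (hkj : k + 2 * m' = finrank ℚ Y.X.H1) (e' : Basis (Fin k ⊕ Fin (2 * m')) Ω (TM Ω Y))
    (I : Fin k → Wt Y.X L) {n : ℕ}
    (hb : (∏ l, lam jO (I l)) ^ (2 * n) = ((p : Ω) ^ Y.a) ^ (k * n)) :
    IsTateClass Ω Y (2 * n) m' (slot e'.det fun l => e (I l)) := by
  classical
  intro v
  set s := 2 * n with hs
  set b : Ω := ∏ l, lam jO (I l) with hbdef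
  have hq := q_ne_zero (Ω := Ω) Y
  have hF : ∀ w, (F Ω Y ^ s) (e w) = lam jO w ^ s • e w := by
    intro w
    have h2 : ∀ n : ℕ, (F Ω Y ^ n) (e w) = lam jO w ^ n • e w := by
      intro n
      induction n with
      | zero => rw [pow_zero, pow_zero, one_smul]; rfl
      | succ n ih =>
        rw [pow_succ', pow_succ']
        change F Ω Y ((F Ω Y ^ n) (e w)) = _
        rw [ih, map_smul, F_e jO e h1 h0 w, smul_smul, mul_comm]
        rfl
    exact h2 s
  have h2 : e'.det (fun i => (F Ω Y ^ s) (Sum.elim (fun l => e (I l)) v i)) =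
      LinearMap.det (F Ω Y) ^ s * e'.det (Sum.elim (fun l => e (I l)) v) := by
    have h3 := e'.det_comp (F Ω Y ^ s) (Sum.elim (fun l => e (I l)) v)
    rw [map_pow] at h3
    exact h3
  have h3 : (fun i => (F Ω Y ^ s) (Sum.elim (fun l => e (I l)) v i)) =
      fun i => (Sum.elim (fun l => lam jO (I l) ^ s) (fun _ => (1 : Ω)) :
        Fin k ⊕ Fin (2 * m') → Ω) i •
        (Sum.elim (fun l => e (I l)) (fun l => (F Ω Y ^ s) (v l)) :
          Fin k ⊕ Fin (2 * m') → TM Ω Y) i := by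
    funext i
    rcases i with i | i
    · exact hF (I i)
    · change (F Ω Y ^ s) (v i) = (1 : Ω) • (F Ω Y ^ s) (v i)
      rw [one_smul]
  rw [h3, AlternatingMap.map_smul_univ, Fintype.prod_sum_type] at h2
  have h4 : ∏ a₁ : Fin k, (Sum.elim (fun l => lam jO (I l) ^ s) (fun _ => (1 : Ω)) :
      Fin k ⊕ Fin (2 * m') → Ω) (Sum.inl a₁) = b ^ s := by
    rw [hbdef, ← Finset.prod_pow]
    rfl
  have h5 : ∏ a₂ : Fin (2 * m'), (Sum.elim (fun l => lam jO (I l) ^ s) (fun _ => (1 : Ω)) :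
      Fin k ⊕ Fin (2 * m') → Ω) (Sum.inr a₂) = 1 := Finset.prod_eq_one fun _ _ => rfl
  have e3 : ∀ q : Ω, (q ^ (k + 2 * m')) ^ n = q ^ (k * n) * q ^ (2 * m' * n) := fun q => by
    rw [← pow_mul, add_mul, pow_add]
  rw [h4, h5, mul_one, hb, hs, pow_mul (LinearMap.det (F Ω Y)), det_F_sq jO Y e h1 h0, ← hkj,
    smul_eq_mul, e3, mul_assoc] at h2
  have h6 := mul_left_cancel₀ (pow_ne_zero _ hq) h2
  change e'.det (Sum.elim (fun l => e (I l)) fun l => (F Ω Y ^ (2 * n)) (v l)) =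
    ((p : Ω) ^ Y.a) ^ (m' * (2 * n)) * e'.det (Sum.elim (fun l => e (I l)) v)
  rw [h6]
  congr 2
  ring

end slot

section frob

variable {M : Type} [AddCommGroup M] [Module Ω M] {Y : RedAV p ν}

theorem frobOn_pow_apply {k : ℕ} (φ : M →ₗ[Ω] M) (n : ℕ) (g : (TM Ω Y) [⋀^Fin k]→ₗ[Ω] M)
    (v : Fin k → TM Ω Y) :
    ((frobOn Y φ k ^ n) g) v = (φ ^ n) (g fun l => (F Ω Y ^ n) (v l)) := by
  induction n generalizing g v with
  | zero => rfl
  | succ n ih =>
    rw [pow_succ, pow_succ', pow_succ']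
    change ((frobOn Y φ k ^ n) (frobOn Y φ k g)) v = _
    rw [ih]
    change (φ ^ n) (φ (g fun l => F Ω Y ((F Ω Y ^ n) (v l)))) =
      φ ((φ ^ n) (g fun l => F Ω Y ((F Ω Y ^ n) (v l))))
    rw [← Module.End.mul_apply, ← Module.End.mul_apply, ← pow_succ, ← pow_succ']

theorem isTate_iff {k : ℕ} (φ : M →ₗ[Ω] M) (c s : ℕ) (x : (TM Ω Y) [⋀^Fin k]→ₗ[Ω] M) :
    IsTateVector (frobOn Y φ k) ((p : Ω) ^ Y.a) c s 1 x ↔ IsTate Y φ c s x := by
  unfold IsTateVector IsTate
  rw [pow_one, LinearMap.sub_apply, sub_eq_zero]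
  constructor
  · intro h v
    rw [← frobOn_pow_apply, h]
    rfl
  · intro h
    ext v
    rw [frobOn_pow_apply, h v]
    rfl

end frob

section combination

variable {M : Type} [AddCommGroup M] [Module Ω M] {Y : RedAV p ν}

theorem mem_of_combination {k : ℕ} {SY : Set ((TM Ω Y) [⋀^Fin k]→ₗ[Ω] Ω)}
    {f : (TM Ω Y) [⋀^Fin k]→ₗ[Ω] Ω} (h : IsCombination Y SY {1} f) :
    f ∈ Submodule.span Ω SY := by
  obtain ⟨n, a, g, w, hg, hw, hf⟩ := h
  have h1 : f = ∑ i, a i • g i := by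
    ext v
    rw [hf v, sum_altM]
    refine Finset.sum_congr rfl fun i _ => ?_
    rw [Set.mem_singleton_iff.1 (hw i), AlternatingMap.smul_apply, smul_eq_mul, smul_eq_mul,
      mul_one]
  rw [h1]
  exact Submodule.sum_mem _ fun i _ => Submodule.smul_mem _ _ (Submodule.subset_span (hg i))

theorem combination_of_mem {k : ℕ} {SY : Set ((TM Ω Y) [⋀^Fin k]→ₗ[Ω] Ω)} {SU : Set M}
    {x : (TM Ω Y) [⋀^Fin k]→ₗ[Ω] M} (h : x ∈ Submodule.span Ω
      {g : (TM Ω Y) [⋀^Fin k]→ₗ[Ω] M | ∃ f ∈ SY, ∃ w ∈ SU, ∀ v, g v = f v • w}) :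
    IsCombination Y SY SU x := by
  obtain ⟨n, a, g, rfl⟩ := Submodule.mem_span_set'.1 h
  choose f hf w hw hg using fun i => (g i).2
  refine ⟨n, a, f, w, hf, hw, fun v => ?_⟩
  rw [sum_altM]
  refine Finset.sum_congr rfl fun i _ => ?_
  rw [AlternatingMap.smul_apply, hg i v, smul_smul]

end combination

section main

variable [IsAlgClosed Ω] {M : ℕ → Type} [∀ b, AddCommGroup (M b)] [∀ b, Module Ω (M b)]
  [∀ b, FiniteDimensional Ω (M b)] {Y : RedAV p ν} {d : ℕ} {φ : ∀ b, M b →ₗ[Ω] M b}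
  {B : ∀ b b', M b →ₗ[Ω] M b' →ₗ[Ω] Ω} {ZY : ∀ k : ℕ, Set ((TM Ω Y) [⋀^Fin k]→ₗ[Ω] Ω)}
  {ZU : ∀ b, AddSubgroup (M b)} {Z : ∀ k b : ℕ, Set ((TM Ω Y) [⋀^Fin k]→ₗ[Ω] M b)}

/-- The coefficients of a cycle on `Y × U`. -/
theorem coefficient (hY : IsGoodAVS Y) (hZ : IsCycleTheory Y d φ B ZY ZU Z)
    (hφ : AreIndependent Y φ) (hodd : HasNoOddSupersingular ((p : Ω) ^ Y.a) φ)
    {L : Type} [Field L] (jO : L →+* Ω) (e : Basis (Wt Y.X L) Ω (TM Ω Y)) [Finite (Wt Y.X L)]
    (h1 : ∀ w, co jO w (e w) = 1) (h0 : ∀ w w', w ≠ w' → co jO w (e w') = 0) {k b c : ℕ}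
    (hkb : k + b = 2 * c) {x : (TM Ω Y) [⋀^Fin k]→ₗ[Ω] M b} (hx : x ∈ Z k b)
    (I : Fin k → Wt Y.X L) (hI : x (fun l => e (I l)) ≠ 0) :
    ∃ (m n : ℕ), k = 2 * m ∧ 0 < n ∧
      (∏ l, lam jO (I l)) ^ (2 * n) = ((p : Ω) ^ Y.a) ^ (k * n) := by
  obtain ⟨s, hs, hT'⟩ := hZ.frobenius c hkb x hx
  have hT := (isTate_iff (φ b) c s x).2 hT'
  obtain ⟨n, α, hn, hα, h4, h5, h6⟩ := component (hφ b) hs jO e h1 h0 hT I hI
  rcases Nat.even_or_odd k with hk | hk
  · obtain ⟨m, hm⟩ := hk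
    exact ⟨m, n, by omega, hn, h4⟩
  · exfalso
    have hb : Odd b := by
      rw [Nat.odd_iff] at hk ⊢
      omega
    refine hodd b α hb hα ⟨n, 2 * c - k, hn, ?_, ?_⟩
    · obtain ⟨m, rfl⟩ := hk
      exact ⟨c - m - 1, by push_cast; ring⟩
    · have hq := q_ne_zero (Ω := Ω) Y
      have h7 : α ^ (2 * n) = ((p : Ω) ^ Y.a) ^ (2 * c * n) / ((p : Ω) ^ Y.a) ^ (k * n) :=
        eq_div_of_mul_eq (pow_ne_zero _ hq) h5
      have e2 : ((n : ℤ) * (2 * (c : ℤ) - (k : ℤ))) = ((2 * c * n : ℕ) : ℤ) - ((k * n : ℕ) : ℤ) := by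
        push_cast
        ring
      rw [h7, e2, zpow_sub₀ hq, zpow_natCast, zpow_natCast]

/-- For each cycle on `Y × U` the relevant contractions. -/
theorem slot_mem (hY : IsGoodAVS Y) (hZ : IsCycleTheory Y d φ B ZY ZU Z)
    (hφ : AreIndependent Y φ) (hodd : HasNoOddSupersingular ((p : Ω) ^ Y.a) φ)
    {L : Type} [Field L] (jO : L →+* Ω) (e : Basis (Wt Y.X L) Ω (TM Ω Y)) [Finite (Wt Y.X L)]
    (h1 : ∀ w, co jO w (e w) = 1) (h0 : ∀ w w', w ≠ w' → co jO w (e w') = 0) {k b c j : ℕ}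
    (hkb : k + b = 2 * c) (hkj : k + j = finrank ℚ Y.X.H1) {x : (TM Ω Y) [⋀^Fin k]→ₗ[Ω] M b}
    (hx : x ∈ Z k b) (e' : Basis (Fin k ⊕ Fin j) Ω (TM Ω Y))
    (I : Fin k → Wt Y.X L) (hI : x (fun l => e (I l)) ≠ 0) :
    slot e'.det (fun l => e (I l)) ∈ Submodule.span Ω (ZY j) := by
  obtain ⟨m, n, hm, hn, hb⟩ := coefficient hY hZ hφ hodd jO e h1 h0 hkb hx I hI
  obtain ⟨g, hg⟩ := even_rank Y
  obtain ⟨m', hm'⟩ : ∃ m', j = 2 * m' := ⟨g - m, by omega⟩
  subst hm'
  have h2 := slot_tate jO e h1 h0 hkj e' I hb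
  exact mem_of_combination
    (hZ.tate.2 (2 * n) m' _ (by omega) h2 (algS_goodS hY (2 * n) m' (by omega) _ h2))

/-- **The Künneth formula for algebraic cycles modulo homological equivalence.** -/
theorem kunneth (hY : IsGoodAVS Y) (hZ : IsCycleTheory Y d φ B ZY ZU Z)
    (hφ : AreIndependent Y φ) (hodd : HasNoOddSupersingular ((p : Ω) ^ Y.a) φ)
    {k b c : ℕ} (hkb : k + b = 2 * c) {x : (TM Ω Y) [⋀^Fin k]→ₗ[Ω] M b} (hx : x ∈ Z k b) :
    x ∈ Submodule.span Ω {g : (TM Ω Y) [⋀^Fin k]→ₗ[Ω] M b |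
      ∃ f ∈ ZY k, ∃ w ∈ ZU b, ∀ v, g v = f v • w} := by
  classical
  have hne : Nonempty (Y.X.prod (single (kp p))).I :=
    ⟨Sum.inr ()⟩
  obtain ⟨L, _, _, _, _, j', hj'⟩ := exists_cm
    (Y.X.prod (single (kp p)))
  have hYj : Big Y.X j' := fun i ψ => hj' (Sum.inl i) ψ
  let jO : L →+* Ω := ((IsAlgClosed.lift : L →ₐ[ℚ] Ω) : L →+* Ω)
  obtain ⟨e, h1, h0⟩ := Pool.Agent.W67.TA.basis p ν Ω L j' jO Y hYj
  haveI : Module.Finite ℚ Y.X.H1 := Module.Finite.pi
  haveI : Finite (Wt Y.X L) := Module.Finite.finite_basis e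
  letI : Fintype (Wt Y.X L) := Fintype.ofFinite _
  have hne : ∀ k : ℕ, ((Fintype.card (Equiv.Perm (Fin k)) : ℕ) : Ω) ≠ 0 := fun k =>
    Nat.cast_ne_zero.2 Fintype.card_ne_zero
  have hcard : Fintype.card (Wt Y.X L) = finrank ℚ Y.X.H1 := by
    rw [← Module.finrank_eq_card_basis e, Module.finrank_baseChange]
  set P := Submodule.span Ω {g : (TM Ω Y) [⋀^Fin k]→ₗ[Ω] M b |
      ∃ f ∈ ZY k, ∃ w ∈ ZU b, ∀ v, g v = f v • w} with hP
  -- products of the spans
  have hprod : ∀ f ∈ Submodule.span Ω (ZY k), ∀ w ∈ Submodule.span Ω (ZU b : Set (M b)),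
      tens f w ∈ P := by
    intro f hf w hw
    induction hf using Submodule.span_induction with
    | mem f hf =>
      induction hw using Submodule.span_induction with
      | mem w hw => exact Submodule.subset_span ⟨f, hf, w, hw, fun v => rfl⟩
      | zero =>
        have h : tens f (0 : M b) = 0 := by
          ext v
          rw [tens_apply, smul_zero]
          rfl
        rw [h]
        exact P.zero_mem
      | add w w' _ _ h h' =>
        have h2 : tens f (w + w') = tens f w + tens f w' := by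
          ext v
          rw [AlternatingMap.add_apply, tens_apply, tens_apply, tens_apply, smul_add]
        rw [h2]
        exact P.add_mem h h'
      | smul a w _ h =>
        have h2 : tens f (a • w) = a • tens f w := by
          ext v
          rw [AlternatingMap.smul_apply, tens_apply, tens_apply, smul_comm]
        rw [h2]
        exact P.smul_mem _ h
    | zero =>
      have h : tens (0 : (TM Ω Y) [⋀^Fin k]→ₗ[Ω] Ω) w = 0 := by
        ext v
        rw [tens_apply]
        exact zero_smul _ _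
      rw [h]
      exact P.zero_mem
    | add f f' _ _ h h' =>
      have h2 : tens (f + f') w = tens f w + tens f' w := by
        ext v
        rw [AlternatingMap.add_apply, tens_apply, tens_apply, tens_apply,
          AlternatingMap.add_apply, add_smul]
      rw [h2]
      exact P.add_mem h h'
    | smul a f _ h =>
      have h2 : tens (a • f) w = a • tens f w := by
        ext v
        rw [AlternatingMap.smul_apply, tens_apply, tens_apply, AlternatingMap.smul_apply,
          smul_assoc]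
      rw [h2]
      exact P.smul_mem _ h
  by_cases hk : k ≤ finrank ℚ Y.X.H1
  · obtain ⟨j, hkj⟩ : ∃ j, k + j = finrank ℚ Y.X.H1 := ⟨_, Nat.add_sub_cancel' hk⟩
    let ε : Wt Y.X L ≃ Fin k ⊕ Fin j := Fintype.equivOfCardEq (by
      rw [hcard, Fintype.card_sum, Fintype.card_fin, Fintype.card_fin, hkj])
    let e' : Basis (Fin k ⊕ Fin j) Ω (TM Ω Y) := e.reindex ε
    have h2 := expandM jO Y e h1 h0 (Fin k) x
    have h3 : ((Fintype.card (Equiv.Perm (Fin k)) : ℕ) : Ω) • x ∈ P := by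
      rw [h2]
      refine Submodule.sum_mem _ fun I _ => ?_
      by_cases hI : x (fun l => e (I l)) = 0
      · rw [hI]
        have h4 : tens (monoO jO I) (0 : M b) = 0 := by
          ext v
          rw [tens_apply, smul_zero]
          rfl
        rw [h4]
        exact P.zero_mem
      · obtain ⟨m, n, hm, hn, hb⟩ := coefficient hY hZ hφ hodd jO e h1 h0 hkb hx I hI
        have h5 := slot_mem hY hZ hφ hodd jO e h1 h0 hkb hkj hx e' I hI
        refine hprod _ ?_ _ ?_
        · subst hm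
          have h7 : IsTateClass Ω Y (2 * n) m (monoO jO I) := by
            intro v
            have e1 : 2 * m * n = m * (2 * n) := by ring
            rw [mono_F, hb, e1]
          exact mem_of_combination
            (hZ.tate.2 (2 * n) m _ (by omega) h7 (algS_goodS hY (2 * n) m (by omega) _ h7))
        · have h6 := integral_mem e' (LinearMap.lsmul Ω (M b)).flip x
            (Submodule.span Ω (ZU b : Set (M b))) (fun f hf => hZ.pushforward e' x f hx hf) h5
          rw [integral_slot] at h6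
          have h8 : ((k.factorial : Ω) * (j.factorial : Ω)) ≠ 0 :=
            mul_ne_zero (Nat.cast_ne_zero.2 (Nat.factorial_ne_zero _))
              (Nat.cast_ne_zero.2 (Nat.factorial_ne_zero _))
          have h9 := Submodule.smul_mem _ (((k.factorial : Ω) * (j.factorial : Ω)))⁻¹ h6
          rwa [smul_smul, inv_mul_cancel₀ h8, one_smul] at h9
    have h4 := Submodule.smul_mem _ (((Fintype.card (Equiv.Perm (Fin k)) : ℕ) : Ω))⁻¹ h3
    rwa [smul_smul, inv_mul_cancel₀ (hne _), one_smul] at h4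
  · -- the group is zero
    have hx0 : x = 0 := by
      ext v
      refine x.map_linearDependent v fun hv => hk ?_
      have h2 := hv.fintype_card_le_finrank
      rwa [Fintype.card_fin, Module.finrank_baseChange] at h2
    rw [hx0]
    exact P.zero_mem

/-- **Homological and numerical equivalence on `Y × U`.** -/
theorem conjectureD_iff (hY : IsGoodAVS Y) (hZ : IsCycleTheory Y d φ B ZY ZU Z)
    (hφ : AreIndependent Y φ) (hodd : HasNoOddSupersingular ((p : Ω) ^ Y.a) φ)
    (c : ℕ) : ConjectureDTimes Y d B Z c ↔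
      ∀ i, i ≤ c → 2 * i ≤ finrank ℚ Y.X.H1 → ConjectureD d B ZU (c - i) := by
  classical
  constructor
  · intro hD i hi hi2 b' hb' w hw hw0
    obtain ⟨f, hf, hf0⟩ := hZ.tate.1 i hi2
    obtain ⟨j, hj⟩ : ∃ j, 2 * i + j = finrank ℚ Y.X.H1 := ⟨_, Nat.add_sub_cancel' hi2⟩
    have hx : tens f w ∈ Z (2 * i) (2 * (c - i)) := hZ.product f w _ hf hw fun v => rfl
    have h1 : tens f w = 0 := by
      refine hD (2 * i) (2 * (c - i)) j b' (by omega) hj hb' _ hx fun e y hy => ?_
      rw [product_integral e (B (2 * (c - i)) b') f w (tens f w) (fun v => rfl) y]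
      have h2 := hZ.pushforward (e.reindex (Equiv.sumComm (Fin (2 * i)) (Fin j))) y f hy hf
      have h3 : Submodule.span Ω (ZU b' : Set (M b')) ≤
          LinearMap.ker (B (2 * (c - i)) b' w) := by
        rw [Submodule.span_le]
        exact fun w' hw' => hw0 w' hw'
      exact h3 h2
    obtain ⟨v, hv⟩ : ∃ v, f v ≠ 0 := by
      by_contra hcon
      push Not at hcon
      exact hf0 (AlternatingMap.ext hcon)
    have h2 : f v • w = 0 := by
      have := congrArg (fun g => g v) h1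
      exact this
    exact (smul_eq_zero.1 h2).resolve_left hv
  · intro hD k b j b' hkb hkj hbb x hx hx0
    have hne : Nonempty (Y.X.prod (single (kp p))).I :=
      ⟨Sum.inr ()⟩
    obtain ⟨L, _, _, _, _, j', hj'⟩ := exists_cm
      (Y.X.prod (single (kp p)))
    have hYj : Big Y.X j' := fun i ψ => hj' (Sum.inl i) ψ
    let jO : L →+* Ω := ((IsAlgClosed.lift : L →ₐ[ℚ] Ω) : L →+* Ω)
    obtain ⟨e, h1, h0⟩ := Pool.Agent.W67.TA.basis p ν Ω L j' jO Y hYj
    haveI : Module.Finite ℚ Y.X.H1 := Module.Finite.pi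
    haveI : Finite (Wt Y.X L) := Module.Finite.finite_basis e
    letI : Fintype (Wt Y.X L) := Fintype.ofFinite _
    have hcard : Fintype.card (Wt Y.X L) = finrank ℚ Y.X.H1 := by
      rw [← Module.finrank_eq_card_basis e, Module.finrank_baseChange]
    let ε : Wt Y.X L ≃ Fin k ⊕ Fin j := Fintype.equivOfCardEq (by
      rw [hcard, Fintype.card_sum, Fintype.card_fin, Fintype.card_fin, hkj])
    let e' : Basis (Fin k ⊕ Fin j) Ω (TM Ω Y) := e.reindex ε
    -- all coefficients vanish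
    have hcoef : ∀ I : Fin k → Wt Y.X L, x (fun l => e (I l)) = 0 := by
      intro I
      by_contra hI
      obtain ⟨m, n, hm, hn, hb⟩ := coefficient hY hZ hφ hodd jO e h1 h0 hkb hx I hI
      have h5 := slot_mem hY hZ hφ hodd jO e h1 h0 hkb hkj hx e' I hI
      have hb2 : b = 2 * (c - m) := by omega
      subst hb2
      have hDm := hD m (by omega) (by omega) b' hbb
      have h6 : ∀ f ∈ ZY j, integral e' (LinearMap.lsmul Ω (M (2 * (c - m)))).flip x f ∈
          (⊥ : Submodule Ω (M (2 * (c - m)))) := by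
        intro f hf
        rw [Submodule.mem_bot]
        refine eq_zero_of_span (B (2 * (c - m)) b') (ZU (2 * (c - m))) (ZU b')
          (hZ.integer _ _ hbb) hDm (hZ.pushforward e' x f hx hf) fun w' hw' => ?_
        rw [← integral_product e' (B (2 * (c - m)) b') x f w' (tens f w') fun v => rfl]
        exact hx0 e' _ (hZ.product f w' _ hf hw' fun v => rfl)
      have h7 := integral_mem e' (LinearMap.lsmul Ω (M (2 * (c - m)))).flip x ⊥ h6 h5
      rw [Submodule.mem_bot, integral_slot] at h7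
      have h8 : ((k.factorial : Ω) * (j.factorial : Ω)) ≠ 0 :=
        mul_ne_zero (Nat.cast_ne_zero.2 (Nat.factorial_ne_zero _))
          (Nat.cast_ne_zero.2 (Nat.factorial_ne_zero _))
      exact hI ((smul_eq_zero.1 h7).resolve_left h8)
    have h2 := expandM jO Y e h1 h0 (Fin k) x
    have h3 : ((Fintype.card (Equiv.Perm (Fin k)) : ℕ) : Ω) • x = 0 := by
      rw [h2]
      refine Finset.sum_eq_zero fun I _ => ?_
      rw [hcoef I]
      ext v
      rw [tens_apply, smul_zero]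
      rfl
    exact (smul_eq_zero.1 h3).resolve_left (Nat.cast_ne_zero.2 Fintype.card_ne_zero)

end main

end

end Pool.Agent.Y137.DU
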