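import Pool.Agent.Y137.DU.Defs

/-!
# Zeta functions and ranks of cycles for the product of an abelian variety and an arbitrary variety:
definitions
-/

set_option autoImplicit false

namespace Pool.Agent.Y137.DU

open Pool.Agent.W495.TA Pool.Agent.Y137.SF Module

noncomputable section

/-- The multiplicity of `q ^ c` as an eigenvalue of the endomorphism `G` of `V`, over all sufficiently
large extensions of the ground field: the dimension of the space spanned by the generalised eigenvectors
of the powers `G ^ s` with the eigenvalues `q ^ (c s)`. -/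
def mult {Ω V : Type} [Field Ω] [AddCommGroup V] [Module Ω V] (G : V → V) (q : Ω) (c : ℕ) : ℕ :=
  Set.finrank Ω {x : V | ∃ s r : ℕ, 0 < s ∧ (fun y => G^[s] y - q ^ (c * s) • y)^[r] x = 0}

/-- The rank of the matrix `P x y`, `x ∈ S`, `y ∈ S'`. -/
def rk {Ω V V' : Type} [Field Ω] (P : V → V' → Ω) (S : Set V) (S' : Set V') : ℕ :=
  Set.finrank Ω (Set.range fun (x : S) (y : S') => P x y)

/-- Endomorphisms of the spaces `M b`. -/
abbrev Operators (Ω : Type) [Field Ω] (M : ℕ → Type) [∀ b, AddCommGroup (M b)]
    [∀ b, Module Ω (M b)] : Type := ∀ b, M b →ₗ[Ω] M b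

/-- Bilinear maps on the spaces `M b`. -/
abbrev Pairings (Ω : Type) [Field Ω] (M : ℕ → Type) [∀ b, AddCommGroup (M b)]
    [∀ b, Module Ω (M b)] : Type := ∀ b b', M b →ₗ[Ω] M b' →ₗ[Ω] Ω

variable {p : ℕ} [Fact p.Prime] {ν : PadicAlgCl p ≃+* ℂ}

/-- `H^k(Y) ⊗ N`, the space of the alternating maps in `k` variables from the Tate module of `Y` to
`N`. -/
abbrev H (Ω : Type) [Field Ω] [CharZero Ω] (Y : RedAV p ν) (k : ℕ) (N : Type) [AddCommGroup N]
    [Module Ω N] : Type := (TM Ω Y) [⋀^Fin k]→ₗ[Ω] N

variable {Ω : Type} [Field Ω] [CharZero Ω] {M : ℕ → Type} [∀ b, AddCommGroup (M b)]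
  [∀ b, Module Ω (M b)]

/-- The multiplicity of the eigenvalue `q ^ (b / 2)` of Frobenius on `H^b(U)`. If `b = 2 i` this is the
order of the pole at `s = i` of the zeta function of `U`, over all sufficiently large extensions of the
ground field. -/
def order (q : Ω) (φ : Operators Ω M) (b : ℕ) : ℕ := mult (φ b) q (b / 2)

/-- The rank of the matrix of the intersection numbers of the cycles in degrees `b` and
`b' = 2 dim U - b`: the rank of the group of cycles on `U` in degree `b` modulo numerical equivalence. -/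
def rank (B : Pairings Ω M) (ZU : ∀ b, AddSubgroup (M b)) (b b' : ℕ) : ℕ :=
  rk (fun w w' => B b b' w w') (ZU b) (ZU b')

/-- The Künneth component of type `(k, b)` of the order of the pole at `s = (k + b) / 2` of the zeta
function of `Y × U`: the multiplicity of the eigenvalue `q ^ ((k + b) / 2)` of Frobenius on
`H^k(Y) ⊗ H^b(U)`. -/
def orderTimes (Y : RedAV p ν) (φ : Operators Ω M) (k b : ℕ) : ℕ :=
  mult (fun x : H Ω Y k (M b) => (φ b).compAlternatingMap (x.compLinearMap (F Ω Y)))
    ((p : Ω) ^ Y.a) ((k + b) / 2)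

/-- The Künneth component of type `(k, b)` of the rank of the group of cycles on `Y × U` modulo numerical
equivalence: the rank of the matrix of the intersection numbers of the components of type `(k, b)` and
`(j, b')`, where `k + j = 2 dim Y` and `b + b' = 2 dim U` (with respect to a basis `e` of the Tate
module of `Y`; up to a constant factor the integral does not depend on `e`). -/
def rankTimes {Y : RedAV p ν} {k j : ℕ} (e : Basis (Fin k ⊕ Fin j) Ω (TM Ω Y)) (B : Pairings Ω M)
    (Z : ∀ k b, Set (H Ω Y k (M b))) (b b' : ℕ) : ℕ :=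
  rk (integral e (B b b')) (Z k b) (Z j b')

/-- Cycles on `Y` are defined over finite extensions of the ground field, and their classes are Tate
classes. -/
def AreTateClasses (Y : RedAV p ν) (ZY : ∀ k, Set (H Ω Y k Ω)) : Prop :=
  ∀ i, ∀ f ∈ ZY (2 * i), ∃ s, 0 < s ∧ IsTateClass Ω Y s i f

/-- Tate's formula for the order of the pole of the zeta function of `Y × U` at `s = c`. (The order and
the rank are the sums of their Künneth components, and the component of the order is at least the
component of the rank.) -/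
def PoleFormulaTimes (Y : RedAV p ν) (d : ℕ) (φ : Operators Ω M) (B : Pairings Ω M)
    (Z : ∀ k b, Set (H Ω Y k (M b))) (c : ℕ) : Prop :=
  ∀ k j (e : Basis (Fin k ⊕ Fin j) Ω (TM Ω Y)) b b', k + b = 2 * c → b + b' = 2 * d →
    orderTimes Y φ k b = rankTimes e B Z b b'

/-- The formulas for the orders and ranks for `Y × U`. -/
def HasDefectFormula (Y : RedAV p ν) (d : ℕ) (φ : Operators Ω M) (B : Pairings Ω M)
    (ZU : ∀ b, AddSubgroup (M b)) (Z : ∀ k b, Set (H Ω Y k (M b))) (ρ : ℕ → ℕ) : Prop :=
  ∀ k j (e : Basis (Fin k ⊕ Fin j) Ω (TM Ω Y)) b b', Even (k + b) → b + b' = 2 * d →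
    orderTimes Y φ k b = ρ k * order ((p : Ω) ^ Y.a) φ b ∧
      rankTimes e B Z b b' = ρ k * rank B ZU b b'

end

end Pool.Agent.Y137.DU
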