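import Pool.Agent.Y137.DU.PDefs
import Pool.Agent.Y137.TV.Main

/-!
# Linear algebra for the orders and ranks
-/

set_option autoImplicit false
set_option linter.unusedSectionVars false
set_option linter.unusedVariables false

namespace Pool.Agent.Y137.DU

open Module Pool.Agent.Y137.TV

noncomputable section

section vectors

variable {Ω V : Type} [Field Ω] [CharZero Ω] [AddCommGroup V] [Module Ω V]

theorem gen_iff (A : V →ₗ[Ω] V) (G : V → V) (hG : ∀ x, G x = A x) (q : Ω) (c s r : ℕ) (x : V) :
    (fun y => G^[s] y - q ^ (c * s) • y)^[r] x = 0 ↔ IsTateVector A q c s r x := by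
  unfold IsTateVector
  have h1 : G = A := funext hG
  rw [h1, Module.End.pow_apply]
  have h2 : (fun y => (A : V → V)^[s] y - q ^ (c * s) • y) =
      ((A ^ s - (q ^ (c * s)) • (1 : V →ₗ[Ω] V) : V →ₗ[Ω] V) : V → V) := by
    funext y
    rw [LinearMap.sub_apply, Module.End.pow_apply]
    rfl
  rw [h2]

theorem mult_eq (A : V →ₗ[Ω] V) (G : V → V) (hG : ∀ x, G x = A x) (q : Ω) (c : ℕ) :
    mult G q c = finrank Ω (Submodule.span Ω {x : V | ∃ s r, 0 < s ∧ IsTateVector A q c s r x}) := by
  unfold mult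
  have h : {x : V | ∃ s r : ℕ, 0 < s ∧ (fun y => G^[s] y - q ^ (c * s) • y)^[r] x = 0} =
      {x : V | ∃ s r, 0 < s ∧ IsTateVector A q c s r x} := by
    ext x
    exact exists_congr fun s => exists_congr fun r => and_congr_right fun _ =>
      gen_iff A G hG q c s r x
  rw [h]
  rfl

end vectors

section rank

variable {Ω V S' : Type} [Field Ω] [AddCommGroup V] [Module Ω V]

/-- The image of a subspace and the kernel. -/
theorem finrank_map_add {V' : Type} [AddCommGroup V'] [Module Ω V'] (R : V →ₗ[Ω] V')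
    (W : Submodule Ω V) [FiniteDimensional Ω W] :
    finrank Ω (W.map R) + finrank Ω (W ⊓ LinearMap.ker R : Submodule Ω V) = finrank Ω W := by
  have h1 := LinearMap.finrank_range_add_finrank_ker (R.domRestrict W)
  rw [LinearMap.range_domRestrict] at h1
  rw [← h1]
  congr 1
  have h2 : LinearMap.ker (R.domRestrict W) =
      (W ⊓ LinearMap.ker R : Submodule Ω V).comap W.subtype := by
    ext x
    rw [LinearMap.mem_ker, Submodule.mem_comap, Submodule.mem_inf, LinearMap.mem_ker]
    exact ⟨fun h => ⟨x.2, h⟩, fun h => h.2⟩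
  rw [h2]
  exact (Submodule.comapSubtypeEquivOfLe inf_le_left).finrank_eq.symm

/-- The rank of a matrix of values of a linear map. -/
theorem rk_eq {V' : Type} (P : V → V' → Ω) (S : Set V) (S' : Set V') (R : V →ₗ[Ω] (S' → Ω))
    (hP : ∀ x ∈ S, ∀ y : S', P x y = R x y) :
    rk P S S' = finrank Ω ((Submodule.span Ω S).map R) := by
  unfold rk
  have h : Set.range (fun (x : S) (y : S') => P x y) = R '' S := by
    ext z
    constructor
    · rintro ⟨x, rfl⟩
      exact ⟨x, x.2, funext fun y => (hP x x.2 y).symm⟩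
    · rintro ⟨x, hx, rfl⟩
      exact ⟨⟨x, hx⟩, funext fun y => hP x hx y⟩
  rw [Submodule.map_span, h]
  rfl

end rank

section CC

variable (Ω T N : Type) [Field Ω] [AddCommGroup T] [Module Ω T] [AddCommGroup N] [Module Ω N]
  (k : ℕ)

/-- The space of the alternating maps. -/
def CC : Type := T [⋀^Fin k]→ₗ[Ω] N

instance : AddCommGroup (CC Ω T N k) := AlternatingMap.instAddCommGroup

instance : Module Ω (CC Ω T N k) := AlternatingMap.instModuleAddCommGroup

theorem finite_CC [FiniteDimensional Ω T] [FiniteDimensional Ω N] :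
    FiniteDimensional Ω (CC Ω T N k) := by
  have h : Module.Finite Ω (T [⋀^Fin k]→ₗ[Ω] N) := Module.Finite.of_injective
    (AlternatingMap.toMultilinearMapLM (S := Ω) :
      (T [⋀^Fin k]→ₗ[Ω] N) →ₗ[Ω] MultilinearMap Ω _ N)
    AlternatingMap.coe_multilinearMap_injective
  exact h

variable {Ω T N k}

/-- The value. -/
def CC.val (x : CC Ω T N k) (v : Fin k → T) : N := (show T [⋀^Fin k]→ₗ[Ω] N from x) v

theorem CC.ext {x y : CC Ω T N k} (h : ∀ v, x.val v = y.val v) : x = y :=
  AlternatingMap.ext h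

theorem CC.val_add (x y : CC Ω T N k) (v : Fin k → T) : (x + y).val v = x.val v + y.val v := rfl

theorem CC.val_smul (a : Ω) (x : CC Ω T N k) (v : Fin k → T) : (a • x).val v = a • x.val v := rfl

theorem CC.val_zero (v : Fin k → T) : (0 : CC Ω T N k).val v = 0 := rfl

theorem CC.val_sum {ι : Type} (s : Finset ι) (g : ι → CC Ω T N k) (v : Fin k → T) :
    (∑ i ∈ s, g i).val v = ∑ i ∈ s, (g i).val v := by
  classical
  induction s using Finset.induction_on with
  | empty => rw [Finset.sum_empty, Finset.sum_empty]; rfl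
  | insert a s ha ih => rw [Finset.sum_insert ha, Finset.sum_insert ha, CC.val_add, ih]

/-- The product of a form and a vector. -/
def tt (f : CC Ω T Ω k) (w : N) : CC Ω T N k :=
  (LinearMap.toSpanSingleton Ω N w).compAlternatingMap (show T [⋀^Fin k]→ₗ[Ω] Ω from f)

theorem tt_val (f : CC Ω T Ω k) (w : N) (v : Fin k → T) : (tt f w).val v = f.val v • w := rfl

theorem tt_add (f : CC Ω T Ω k) (w w' : N) : tt f (w + w') = tt f w + tt f w' :=
  CC.ext fun v => by rw [CC.val_add, tt_val, tt_val, tt_val, smul_add]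

theorem tt_smul (f : CC Ω T Ω k) (a : Ω) (w : N) : tt f (a • w) = a • tt f w :=
  CC.ext fun v => by rw [CC.val_smul, tt_val, tt_val, smul_comm]

theorem tt_zero (f : CC Ω T Ω k) : tt f (0 : N) = 0 :=
  CC.ext fun v => by rw [tt_val, smul_zero, CC.val_zero]

theorem add_tt (f f' : CC Ω T Ω k) (w : N) : tt (f + f') w = tt f w + tt f' w :=
  CC.ext fun v => by rw [CC.val_add, tt_val, tt_val, tt_val, CC.val_add, add_smul]

theorem smul_tt (a : Ω) (f : CC Ω T Ω k) (w : N) : tt (a • f) w = a • tt f w :=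
  CC.ext fun v => by rw [CC.val_smul, tt_val, tt_val, CC.val_smul, smul_assoc]

theorem zero_tt (w : N) : tt (0 : CC Ω T Ω k) w = 0 :=
  CC.ext fun v => by rw [tt_val, CC.val_zero, zero_smul, CC.val_zero]

/-- Products of the elements of two spans. -/
theorem tt_mem {SY : Set (CC Ω T Ω k)} {SU : Set N} (P : Submodule Ω (CC Ω T N k))
    (h : ∀ f ∈ SY, ∀ w ∈ SU, tt f w ∈ P) :
    ∀ f ∈ Submodule.span Ω SY, ∀ w ∈ Submodule.span Ω SU, tt f w ∈ P := by
  intro f hf w hw
  induction hf using Submodule.span_induction with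
  | mem f hf =>
    induction hw using Submodule.span_induction with
    | mem w hw => exact h f hf w hw
    | zero => rw [tt_zero]; exact P.zero_mem
    | add w w' _ _ h h' => rw [tt_add]; exact P.add_mem h h'
    | smul a w _ h => rw [tt_smul]; exact P.smul_mem _ h
  | zero => rw [zero_tt]; exact P.zero_mem
  | add f f' _ _ h h' => rw [add_tt]; exact P.add_mem h h'
  | smul a f _ h => rw [smul_tt]; exact P.smul_mem _ h

/-- The span of the products. -/
def tensS (A : Submodule Ω (CC Ω T Ω k)) (S : Submodule Ω N) : Submodule Ω (CC Ω T N k) :=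
  Submodule.span Ω {x | ∃ f ∈ A, ∃ w ∈ S, x = tt f w}

theorem mem_tensS {A : Submodule Ω (CC Ω T Ω k)} {S : Submodule Ω N} {f : CC Ω T Ω k}
    (hf : f ∈ A) {w : N} (hw : w ∈ S) : tt f w ∈ tensS A S :=
  Submodule.subset_span ⟨f, hf, w, hw, rfl⟩

theorem finrank_tensS (A : Submodule Ω (CC Ω T Ω k)) (S : Submodule Ω N)
    [FiniteDimensional Ω A] [FiniteDimensional Ω S] :
    finrank Ω (tensS A S) = finrank Ω A * finrank Ω S := by
  classical
  let a := Module.finBasis Ω A
  let b := Module.finBasis Ω S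
  let F' : Fin (finrank Ω A) × Fin (finrank Ω S) → CC Ω T N k := fun ij =>
    tt (a ij.1 : CC Ω T Ω k) (b ij.2 : N)
  have ha : ∀ f ∈ A, f ∈ Submodule.span Ω (Set.range fun i => (a i : CC Ω T Ω k)) := by
    intro f hf
    have h2 : ((∑ i, a.repr ⟨f, hf⟩ i • a i : A) : CC Ω T Ω k) = f :=
      congrArg Subtype.val (a.sum_repr ⟨f, hf⟩)
    rw [Submodule.coe_sum] at h2
    rw [← h2]
    refine Submodule.sum_mem _ fun i _ => ?_
    rw [Submodule.coe_smul]
    exact Submodule.smul_mem _ _ (Submodule.subset_span ⟨i, rfl⟩)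
  have hb : ∀ w ∈ S, w ∈ Submodule.span Ω (Set.range fun i => (b i : N)) := by
    intro f hf
    have h2 : ((∑ i, b.repr ⟨f, hf⟩ i • b i : S) : N) = f :=
      congrArg Subtype.val (b.sum_repr ⟨f, hf⟩)
    rw [Submodule.coe_sum] at h2
    rw [← h2]
    refine Submodule.sum_mem _ fun i _ => ?_
    rw [Submodule.coe_smul]
    exact Submodule.smul_mem _ _ (Submodule.subset_span ⟨i, rfl⟩)
  have hspan : tensS A S = Submodule.span Ω (Set.range F') := by
    apply le_antisymm
    · refine Submodule.span_le.2 ?_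
      rintro _ ⟨f, hf, w, hw, rfl⟩
      refine tt_mem _ ?_ f (ha f hf) w (hb w hw)
      rintro _ ⟨i, rfl⟩ _ ⟨j, rfl⟩
      exact Submodule.subset_span ⟨(i, j), rfl⟩
    · refine Submodule.span_le.2 ?_
      rintro _ ⟨ij, rfl⟩
      exact mem_tensS (a ij.1).2 (b ij.2).2
  have hind : LinearIndependent Ω F' := by
    rw [Fintype.linearIndependent_iff]
    intro g hg
    have h1 : ∀ v j, ∑ i, g (i, j) * (a i : CC Ω T Ω k).val v = 0 := by
      intro v j
      have h3 : ∑ j, (∑ i, g (i, j) * (a i : CC Ω T Ω k).val v) • b j = 0 := by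
        apply Subtype.ext
        have h4 := congrArg (fun x : CC Ω T N k => x.val v) hg
        simp only [CC.val_sum, CC.val_zero] at h4
        rw [Fintype.sum_prod_type, Finset.sum_comm] at h4
        rw [Submodule.coe_sum, Submodule.coe_zero, ← h4]
        refine Finset.sum_congr rfl fun j _ => ?_
        rw [Submodule.coe_smul, Finset.sum_smul]
        refine Finset.sum_congr rfl fun i _ => ?_
        rw [CC.val_smul, mul_smul]
        rfl
      exact Fintype.linearIndependent_iff.1 b.linearIndependent _ h3 j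
    have h5 : ∀ j, ∑ i, g (i, j) • a i = 0 := by
      intro j
      apply Subtype.ext
      rw [Submodule.coe_sum, Submodule.coe_zero]
      refine CC.ext fun v => ?_
      rw [CC.val_sum, CC.val_zero]
      exact h1 v j
    rintro ⟨i, j⟩
    exact Fintype.linearIndependent_iff.1 a.linearIndependent _ (h5 j) i
  rw [hspan, finrank_span_eq_card hind, Fintype.card_prod, Fintype.card_fin, Fintype.card_fin]

end CC

end

end Pool.Agent.Y137.DU
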