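import Pool.Agent.Y137.DU.Tate
import Pool.Agent.Y137.DU.Pole1

/-!
# Zeta functions and ranks of cycles: preparations
-/

set_option autoImplicit false
set_option linter.unusedSectionVars false
set_option linter.unusedVariables false

namespace Pool.Agent.Y137.DU

open Pool.Agent.H204R3.CM Pool.Agent.W547.KB Pool.Agent.W547.LD
open Pool.Agent.W495.TA Pool.Agent.Y137.SF Pool.Agent.Y137.GN NumberField Module
  Pool.Agent.W495.TB Pool.Agent.W495.TC Pool.Agent.TH117.F5 Pool.Agent.TH117.BL Pool.Agent.Y137.TV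
open scoped TensorProduct

noncomputable section

section general

variable {Ω T M M' N : Type} [Field Ω] [AddCommGroup T] [Module Ω T] [AddCommGroup M]
  [Module Ω M] [AddCommGroup M'] [Module Ω M'] [AddCommGroup N] [Module Ω N] {k j : ℕ}
  (e : Basis (Fin k ⊕ Fin j) Ω T)

theorem int_memR (B : M →ₗ[Ω] M' →ₗ[Ω] N) (x : CC Ω T M k) (P : Submodule Ω N)
    {S : Set (CC Ω T M' j)} (h : ∀ y ∈ S, integral e B x y ∈ P) {y : CC Ω T M' j}
    (hy : y ∈ Submodule.span Ω S) : integral e B x y ∈ P := by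
  induction hy using Submodule.span_induction with
  | mem y hy => exact h y hy
  | zero =>
    have h1 : integral e B x (0 : CC Ω T M' j) = 0 := by
      have h2 := integral_smul_right e B x (0 : Ω) (0 : T [⋀^Fin j]→ₗ[Ω] M')
      rw [zero_smul, zero_smul] at h2
      exact h2
    rw [h1]
    exact P.zero_mem
  | add y y' _ _ h1 h2 =>
    have h3 : integral e B x (y + y' : CC Ω T M' j) = integral e B x y + integral e B x y' :=
      integral_add_right e B x y y'
    rw [h3]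
    exact P.add_mem h1 h2
  | smul a y _ h1 =>
    have h3 : integral e B x (a • y : CC Ω T M' j) = a • integral e B x y :=
      integral_smul_right e B x a y
    rw [h3]
    exact P.smul_mem _ h1

theorem int_memL (B : M →ₗ[Ω] M' →ₗ[Ω] N) (P : Submodule Ω N) {S : Set (CC Ω T M k)}
    (y : CC Ω T M' j) (h : ∀ x ∈ S, integral e B x y ∈ P) {x : CC Ω T M k}
    (hx : x ∈ Submodule.span Ω S) : integral e B x y ∈ P := by
  induction hx using Submodule.span_induction with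
  | mem y hy => exact h y hy
  | zero =>
    have h1 : integral e B (0 : CC Ω T M k) y = 0 := by
      have h2 := integral_smul_left e B (0 : Ω) (0 : T [⋀^Fin k]→ₗ[Ω] M) y
      rw [zero_smul, zero_smul] at h2
      exact h2
    rw [h1]
    exact P.zero_mem
  | add x x' _ _ h1 h2 =>
    have h3 : integral e B (x + x' : CC Ω T M k) y = integral e B x y + integral e B x' y :=
      integral_add_left e B x x' y
    rw [h3]
    exact P.add_mem h1 h2
  | smul a x _ h1 =>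
    have h3 : integral e B (a • x : CC Ω T M k) y = a • integral e B x y :=
      integral_smul_left e B a x y
    rw [h3]
    exact P.smul_mem _ h1

/-- The rows of the intersection matrix. -/
def rowMap {S' : Type} (E : S' → Basis (Fin k ⊕ Fin j) Ω T) (y : S' → CC Ω T M' j)
    (B : M →ₗ[Ω] M' →ₗ[Ω] Ω) : CC Ω T M k →ₗ[Ω] (S' → Ω) where
  toFun x t := integral (E t) B x (y t)
  map_add' x x' := funext fun t => integral_add_left (E t) B x x' (y t)
  map_smul' a x := funext fun t => integral_smul_left (E t) B a x (y t)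

end general

variable {p : ℕ} [Fact p.Prime] {ν : PadicAlgCl p ≃+* ℂ} {Ω : Type} [Field Ω] [CharZero Ω]

/-- The span of the Tate classes on `Y`. -/
def TY (Y : RedAV p ν) (m : ℕ) : Submodule Ω (CC Ω (TM Ω Y) Ω (2 * m)) :=
  Submodule.span Ω {f | ∃ s, 0 < s ∧ IsTateClass Ω Y s m f}

section comb

variable {Y : RedAV p ν} {M : Type} [AddCommGroup M] [Module Ω M]

theorem memC_of_combination {k : ℕ} {SY : Set (CC Ω (TM Ω Y) Ω k)}
    {f : CC Ω (TM Ω Y) Ω k} (h : IsCombination (N := Ω) Y SY {1} f) :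
    f ∈ Submodule.span Ω SY := by
  obtain ⟨n, a, g, w, hg, hw, hf⟩ := h
  have h1 : f = ∑ i, a i • (show CC Ω (TM Ω Y) Ω k from g i) := by
    refine CC.ext fun v => ?_
    rw [CC.val_sum]
    refine (hf v).trans (Finset.sum_congr rfl fun i _ => ?_)
    rw [Set.mem_singleton_iff.1 (hw i), smul_eq_mul, mul_one]
    rfl
  rw [h1]
  exact Submodule.sum_mem _ fun i _ => Submodule.smul_mem _ _ (Submodule.subset_span (hg i))

theorem memC_of_products {k : ℕ} {SY : Set (CC Ω (TM Ω Y) Ω k)} {SU : Set M}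
    {x : CC Ω (TM Ω Y) M k} (h : IsCombination Y SY SU x) :
    x ∈ tensS (Submodule.span Ω SY) (Submodule.span Ω SU) := by
  obtain ⟨n, a, g, w, hg, hw, hf⟩ := h
  have h1 : x = ∑ i, a i • (tt (show CC Ω (TM Ω Y) Ω k from g i) (w i)) := by
    refine CC.ext fun v => ?_
    rw [CC.val_sum]
    refine (hf v).trans (Finset.sum_congr rfl fun i _ => ?_)
    rw [CC.val_smul, tt_val, mul_smul]
    rfl
  rw [h1]
  exact Submodule.sum_mem _ fun i _ => Submodule.smul_mem _ _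
    (mem_tensS (Submodule.subset_span (hg i)) (Submodule.subset_span (hw i)))

end comb

section main

variable [IsAlgClosed Ω] {M : ℕ → Type} [∀ b, AddCommGroup (M b)] [∀ b, Module Ω (M b)]
  [∀ b, FiniteDimensional Ω (M b)] {Y : RedAV p ν} {d : ℕ} {φ : ∀ b, M b →ₗ[Ω] M b}
  {B : ∀ b b', M b →ₗ[Ω] M b' →ₗ[Ω] Ω} {ZY : ∀ k : ℕ, Set ((TM Ω Y) [⋀^Fin k]→ₗ[Ω] Ω)}
  {ZU : ∀ b, AddSubgroup (M b)} {Z : ∀ k b : ℕ, Set ((TM Ω Y) [⋀^Fin k]→ₗ[Ω] M b)}

/-- The cycles as a subset. -/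
def ZC (Z : ∀ k b : ℕ, Set ((TM Ω Y) [⋀^Fin k]→ₗ[Ω] M b)) (k b : ℕ) :
    Set (CC Ω (TM Ω Y) (M b) k) := Z k b

/-- The cycles on `Y` as a subset. -/
def YC (ZY : ∀ k : ℕ, Set ((TM Ω Y) [⋀^Fin k]→ₗ[Ω] Ω)) (k : ℕ) :
    Set (CC Ω (TM Ω Y) Ω k) := ZY k

theorem TY_eq (hY : IsGoodAVS Y) (hZ : IsCycleTheory Y d φ B ZY ZU Z)
    (hT : AreTateClasses Y ZY) (m : ℕ) : TY Y m = Submodule.span Ω (YC ZY (2 * m)) := by
  apply le_antisymm
  · refine Submodule.span_le.2 ?_
    rintro f ⟨s, hs, hf⟩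
    exact memC_of_combination (hZ.tate.2 s m f hs hf (algS_goodS hY s m hs f hf))
  · refine Submodule.span_mono fun f hf => ?_
    obtain ⟨s, hs, h⟩ := hT m f hf
    exact ⟨s, hs, h⟩

/-- The span of the cycles on `Y × U`. -/
theorem span_Z (hY : IsGoodAVS Y) (hZ : IsCycleTheory Y d φ B ZY ZU Z)
    (hT : AreTateClasses Y ZY) (hφ : AreIndependent Y φ)
    (hodd : HasNoOddSupersingular ((p : Ω) ^ Y.a) φ) {m b c : ℕ} (hkb : 2 * m + b = 2 * c) :
    Submodule.span Ω (ZC Z (2 * m) b) =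
      tensS (TY Y m) (Submodule.span Ω (ZU b : Set (M b))) := by
  rw [TY_eq hY hZ hT]
  apply le_antisymm
  · exact Submodule.span_le.2 fun x hx =>
      memC_of_products (combination_of_mem (kunneth hY hZ hφ hodd hkb hx))
  · refine Submodule.span_le.2 ?_
    rintro _ ⟨f, hf, w, hw, rfl⟩
    exact tt_mem _ (fun f hf w hw => Submodule.subset_span
      (hZ.product f w _ hf hw fun v => rfl)) f hf w hw

/-- The Frobenius endomorphism of `H^k(Y) ⊗ N`. -/
def frobMap (Y : RedAV p ν) {N : Type} [AddCommGroup N] [Module Ω N] (φ : N →ₗ[Ω] N) {k : ℕ}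
    (x : (TM Ω Y) [⋀^Fin k]→ₗ[Ω] N) : (TM Ω Y) [⋀^Fin k]→ₗ[Ω] N :=
  φ.compAlternatingMap (x.compLinearMap (F Ω Y))

/-- The Frobenius endomorphism as a linear map. -/
def frobC (Y : RedAV p ν) {N : Type} [AddCommGroup N] [Module Ω N] (φ : N →ₗ[Ω] N) (k : ℕ) :
    CC Ω (TM Ω Y) N k →ₗ[Ω] CC Ω (TM Ω Y) N k where
  toFun x := frobMap Y φ x
  map_add' x x' := CC.ext fun v => map_add φ _ _
  map_smul' a x := CC.ext fun v => map_smul φ _ _

theorem frobC_eq (Y : RedAV p ν) {N : Type} [AddCommGroup N] [Module Ω N] (φ : N →ₗ[Ω] N)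
    (k c s r : ℕ) (q : Ω) (x : (TM Ω Y) [⋀^Fin k]→ₗ[Ω] N) :
    IsTateVector (V := CC Ω (TM Ω Y) N k) (frobC Y φ k) q c s r x ↔
      IsTateVector (frobOn Y φ k) q c s r x := Iff.rfl

/-- The multiplicities. -/
theorem mult_formula (hY : IsGoodAVS Y) (hφ : AreIndependent Y φ) {m b c : ℕ}
    (hkb : 2 * m + b = 2 * c) :
    orderTimes Y φ (2 * m) b = finrank Ω (TY (Ω := Ω) Y m) *
      finrank Ω (Submodule.span Ω {w : M b | ∃ s r, 0 < s ∧
        IsTateVector (φ b) ((p : Ω) ^ Y.a) (c - m) s r w}) := by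
  classical
  have hq := q_ne_zero (Ω := Ω) Y
  haveI : Module.Finite ℚ Y.X.H1 := Module.Finite.pi
  haveI : FiniteDimensional Ω (CC Ω (TM Ω Y) Ω (2 * m)) := finite_CC _ _ _ _
  rw [← finrank_tensS]
  have h1 : orderTimes Y φ (2 * m) b = _ :=
    mult_eq (frobC Y (φ b) (2 * m)) (frobMap Y (φ b)) (fun x => rfl) ((p : Ω) ^ Y.a)
      ((2 * m + b) / 2)
  have hc : (2 * m + b) / 2 = c := by omega
  rw [h1, hc]
  have key : Submodule.span Ω {x : CC Ω (TM Ω Y) (M b) (2 * m) | ∃ s r, 0 < s ∧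
      IsTateVector (frobC Y (φ b) (2 * m)) ((p : Ω) ^ Y.a) c s r x} =
      tensS (TY Y m) (Submodule.span Ω {w : M b | ∃ s r, 0 < s ∧
        IsTateVector (φ b) ((p : Ω) ^ Y.a) (c - m) s r w}) := by
    apply le_antisymm
    · refine Submodule.span_le.2 ?_
      rintro x ⟨s, r, hs, hx⟩
      have hx' := (frobC_eq Y (φ b) (2 * m) c s r _ x).1 hx
      have h2 := (TV.main Y hY (φ b) (hφ b) s c r hs).1 m x hx'
      obtain ⟨n, a, g, hg⟩ := Submodule.mem_span_set'.1 h2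
      have h3 : x = ∑ i, a i • (show CC Ω (TM Ω Y) (M b) (2 * m) from (g i).1) := by
        refine CC.ext fun v => ?_
        rw [CC.val_sum]
        have h4 := congrArg (fun z : (TM Ω Y) [⋀^Fin (2 * m)]→ₗ[Ω] M b => z v) hg
        simp only [sum_altM] at h4
        exact h4.symm
      rw [h3]
      refine Submodule.sum_mem _ fun i _ => Submodule.smul_mem _ _ ?_
      obtain ⟨s', f, w, hs', hf, hfA, hw, hgi⟩ := (g i).2
      have hgt : (show CC Ω (TM Ω Y) (M b) (2 * m) from (g i).1) = tt f w :=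
        CC.ext fun v => hgi v
      rw [hgt]
      have hf1 : (show CC Ω (TM Ω Y) Ω (2 * m) from f) ∈ TY (Ω := Ω) Y m :=
        Submodule.subset_span ⟨s', hs', hf⟩
      have hw1 : w ∈ Submodule.span Ω {w : M b | ∃ s r, 0 < s ∧
          IsTateVector (φ b) ((p : Ω) ^ Y.a) (c - m) s r w} :=
        Submodule.subset_span ⟨s', r, hs', (isTateVector_smul hq (by omega) w).1 hw⟩
      exact mem_tensS hf1 hw1
    · refine Submodule.span_le.2 ?_
      rintro _ ⟨f, hf, w, hw, rfl⟩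
      refine tt_mem _ ?_ f hf w hw
      rintro f ⟨t, ht, hf⟩ w ⟨s, r, hs, hw⟩
      exact Submodule.subset_span ⟨t * s, r, Nat.mul_pos ht hs,
        (frobC_eq Y (φ b) (2 * m) c (t * s) r _ _).2 (tens_tate (by omega) hf hw)⟩
  rw [key]

theorem TY_pos (hZ : IsCycleTheory Y d φ B ZY ZU Z) (hT : AreTateClasses Y ZY) {m : ℕ}
    (hm : 2 * m ≤ finrank ℚ Y.X.H1) : 0 < finrank Ω (TY (Ω := Ω) Y m) := by
  haveI : Module.Finite ℚ Y.X.H1 := Module.Finite.pi
  haveI : FiniteDimensional Ω (CC Ω (TM Ω Y) Ω (2 * m)) := finite_CC _ _ _ _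
  obtain ⟨f, hf, hf0⟩ := hZ.tate.1 m hm
  obtain ⟨s, hs, hfs⟩ := hT m f hf
  have hmem : (show CC Ω (TM Ω Y) Ω (2 * m) from f) ∈ TY (Ω := Ω) Y m :=
    Submodule.subset_span ⟨s, hs, hfs⟩
  have : Nontrivial (TY (Ω := Ω) Y m) :=
    ⟨⟨⟨f, hmem⟩, 0, fun h => hf0 (congrArg Subtype.val h)⟩⟩
  exact finrank_pos

end main

end

end Pool.Agent.Y137.DU
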